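import Mathlib
import Pool.Agent.Helper40.CX.CHI.Defs

/-!
# Automorphisms of Weierstrass models over the affine automorphisms of the line

`(u0 : u1; x : y : z) ↦ (u0 : d u1 + c u0; e ^ 2 x : e ^ 3 y : z)`
-/

set_option autoImplicit false
set_option linter.unusedSectionVars false

namespace CX.CHV

open CX.VC CX.VF Function Polynomial
open CX.Pool.Agent.Helper51.EW (Wei Coord WPt)
open CX.Pool.Agent.Helper21.TO

universe u

section

variable {k : Type u} [Field k]

/-- The map `(u0, u1) ↦ (u0, d u1 + c u0)`. -/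
def affV {K : Type u} [Field K] [Algebra k K] (d c : k) (u : Fin 2 → K) : Fin 2 → K :=
  ![u 0, algebraMap k K d * u 1 + algebraMap k K c * u 0]

/-- The forms `u0, d u1 + c u0`. -/
noncomputable def affF (d c : k) : Fin 2 → MvPolynomial (Fin 2) k :=
  ![MvPolynomial.X 0, MvPolynomial.C d * MvPolynomial.X 1 + MvPolynomial.C c * MvPolynomial.X 0]

/-- An automorphism `(u0 : u1; x : y : z) ↦ (u0 : d u1 + c u0; e ^ 2 x : e ^ 3 y : z)` of the
Weierstrass model. -/
structure Aut (V : Wei k) where
  d : k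
  c : k
  e : k
  hd : d ≠ 0
  he : e ≠ 0
  hA : MvPolynomial.bind₁ (affF d c) V.A = MvPolynomial.C (e ^ 4) * V.A
  hB : MvPolynomial.bind₁ (affF d c) V.B = MvPolynomial.C (e ^ 6) * V.B

variable {V : Wei k} {K : Type u} [Field K] [Algebra k K]

theorem aeval_affF (d c : k) (F : MvPolynomial (Fin 2) k) (u : Fin 2 → K) :
    MvPolynomial.aeval u (MvPolynomial.bind₁ (affF d c) F) = MvPolynomial.aeval (affV d c u) F := by
  rw [MvPolynomial.aeval_bind₁]
  congr 2
  funext i
  fin_cases i
  · change MvPolynomial.aeval u (MvPolynomial.X 0) = u 0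
    simp
  · change MvPolynomial.aeval u (MvPolynomial.C d * MvPolynomial.X 1 +
      MvPolynomial.C c * MvPolynomial.X 0) = algebraMap k K d * u 1 + algebraMap k K c * u 0
    simp

theorem Aut.aevalA (F : Aut V) (u : Fin 2 → K) :
    MvPolynomial.aeval (affV F.d F.c u) V.A =
      algebraMap k K F.e ^ 4 * MvPolynomial.aeval u V.A := by
  rw [← aeval_affF, F.hA, map_mul, MvPolynomial.algHom_C, map_pow]

theorem Aut.aevalB (F : Aut V) (u : Fin 2 → K) :
    MvPolynomial.aeval (affV F.d F.c u) V.B =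
      algebraMap k K F.e ^ 6 * MvPolynomial.aeval u V.B := by
  rw [← aeval_affF, F.hB, map_mul, MvPolynomial.algHom_C, map_pow]

/-- The automorphism on coordinates. -/
noncomputable def autC (F : Aut V) (a : Coord V K) : Coord V K where
  u := affV F.d F.c a.u
  w := ![algebraMap k K F.e ^ 2 * a.w 0, algebraMap k K F.e ^ 3 * a.w 1, a.w 2]
  u_ne := by
    intro h
    have h0 : a.u 0 = 0 := congrFun h 0
    have h1 : algebraMap k K F.d * a.u 1 + algebraMap k K F.c * a.u 0 = 0 := congrFun h 1
    rw [h0, mul_zero, add_zero] at h1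
    apply a.u_ne
    funext i
    fin_cases i
    · exact h0
    · exact (mul_eq_zero.mp h1).resolve_left ((_root_.map_ne_zero _).mpr F.hd)
  w_ne := by
    intro h
    have h0 : algebraMap k K F.e ^ 2 * a.w 0 = 0 := congrFun h 0
    have h1 : algebraMap k K F.e ^ 3 * a.w 1 = 0 := congrFun h 1
    have h2 : a.w 2 = 0 := congrFun h 2
    have he : algebraMap k K F.e ≠ 0 := (_root_.map_ne_zero _).mpr F.he
    apply a.w_ne
    funext i
    fin_cases i
    · exact (mul_eq_zero.mp h0).resolve_left (pow_ne_zero _ he)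
    · exact (mul_eq_zero.mp h1).resolve_left (pow_ne_zero _ he)
    · exact h2
  eqn := by
    have h := a.eqn
    change (algebraMap k K F.e ^ 3 * a.w 1) ^ 2 * a.w 2 = (algebraMap k K F.e ^ 2 * a.w 0) ^ 3 +
      MvPolynomial.aeval (affV F.d F.c a.u) V.A * (algebraMap k K F.e ^ 2 * a.w 0) * a.w 2 ^ 2 +
      MvPolynomial.aeval (affV F.d F.c a.u) V.B * a.w 2 ^ 3
    rw [F.aevalA, F.aevalB]
    linear_combination algebraMap k K F.e ^ 6 * h

/-- The automorphism. -/
noncomputable def aut (F : Aut V) (p : WPt V K) : WPt V K :=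
  Quotient.map (autC F) (by
    rintro a b ⟨l, c, hl, hc, h1, h2⟩
    refine ⟨l, c, hl, hc, fun i => ?_, fun i => ?_⟩
    · fin_cases i
      · exact h1 0
      · change algebraMap k K F.d * b.u 1 + algebraMap k K F.c * b.u 0 =
          l * (algebraMap k K F.d * a.u 1 + algebraMap k K F.c * a.u 0)
        rw [h1 0, h1 1]; ring
    · fin_cases i
      · change algebraMap k K F.e ^ 2 * b.w 0 =
          l ^ CX.Pool.Agent.Helper51.EW.wt V.N 0 * c * (algebraMap k K F.e ^ 2 * a.w 0)
        rw [h2 0]; ring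
      · change algebraMap k K F.e ^ 3 * b.w 1 =
          l ^ CX.Pool.Agent.Helper51.EW.wt V.N 1 * c * (algebraMap k K F.e ^ 3 * a.w 1)
        rw [h2 1]; ring
      · exact h2 2) p

theorem aut_mk (F : Aut V) (a : Coord V K) : aut F (WPt.mk a) = WPt.mk (autC F a) := rfl

end

end CX.CHV
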