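import Mathlib
import Pool.Agent.Helper9.NS
import Pool.Agent.Helper40.CX.CHV.Twist
import Pool.Agent.Helper40.CX.H21TO.WCases
import Pool.Agent.Helper40.CX.H21TO.ExModel

/-!
# The cycles of the points of the Weierstrass model and the automorphisms
-/

set_option autoImplicit false
set_option linter.unusedSectionVars false

namespace CX.CHV

open CX.VC CX.VF Function Polynomial CX.CHI
open CX.Pool.Agent.Helper51.EW (Wei Coord WPt aff zeroPt)
open CX.Pool.Agent.Helper21.TO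

universe u

variable {k : Type u} [Field k] [IsAlgClosed k] [CX.Good k] {V : Wei k} {L : Type u} [Field L]
  [Algebra k L]

theorem ptJ_aut (F : Aut V) {μ : k} (hμ : μ ≠ 0) {c c' : Fin 2 → k} (hc : c ≠ 0) (hc' : c' ≠ 0)
    (hcc : ∀ i, c' i = μ * affV F.d F.c c i) {ε : k} (hε : ε ≠ 0) (hεμ : ε = μ ^ V.N * F.e)
    (hA : MvPolynomial.aeval c' V.A = ε ^ 4 * MvPolynomial.aeval c V.A)
    (hB : MvPolynomial.aeval c' V.B = ε ^ 6 * MvPolynomial.aeval c V.B)
    (a : EPt (MvPolynomial.aeval c V.A) (MvPolynomial.aeval c V.B)) :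
    aut F (ptJ V c hc a) = ptJ V c' hc' (scF ε hε hA hB a) := by
  have e2 : ε ^ 2 = μ ^ (2 * V.N) * F.e ^ 2 := by rw [hεμ]; ring
  have e3 : ε ^ 3 = μ ^ (3 * V.N) * F.e ^ 3 := by rw [hεμ]; ring
  rcases a with _ | ⟨x, y, hxy⟩
  · change aut F (WPt.mk (CX.Pool.Agent.Helper51.EW.zeroC c hc)) =
      WPt.mk (CX.Pool.Agent.Helper51.EW.zeroC c' hc')
    rw [aut_mk, CX.Pool.Agent.Helper51.EW.mk_eq_iff]
    refine ⟨μ, (ε ^ 3)⁻¹, hμ, inv_ne_zero (pow_ne_zero _ hε), hcc, fun i => ?_⟩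
    fin_cases i
    · change (0 : k) = μ ^ (2 * V.N) * (ε ^ 3)⁻¹ * (F.e ^ 2 * 0)
      ring
    · change (1 : k) = μ ^ (3 * V.N) * (ε ^ 3)⁻¹ * (F.e ^ 3 * 1)
      have h1 : μ ^ (3 * V.N) * (ε ^ 3)⁻¹ * (F.e ^ 3 * 1) = ε ^ 3 * (ε ^ 3)⁻¹ := by
        rw [e3]; ring
      rw [h1, mul_inv_cancel₀ (pow_ne_zero _ hε)]
    · change (0 : k) = μ ^ 0 * (ε ^ 3)⁻¹ * 0
      rw [mul_zero]
  · change aut F (WPt.mk (CX.Pool.Agent.Helper51.EW.affC c x y hc (sw_nonsingular.mp hxy).1)) =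
      WPt.mk (CX.Pool.Agent.Helper51.EW.affC c' (ε ^ 2 * x) (ε ^ 3 * y) hc' _)
    rw [aut_mk, CX.Pool.Agent.Helper51.EW.mk_eq_iff]
    refine ⟨μ, 1, hμ, one_ne_zero, hcc, fun i => ?_⟩
    fin_cases i
    · change ε ^ 2 * x = μ ^ (2 * V.N) * 1 * (F.e ^ 2 * x)
      rw [e2]; ring
    · change ε ^ 3 * y = μ ^ (3 * V.N) * 1 * (F.e ^ 3 * y)
      rw [e3]; ring
    · change (1 : k) = μ ^ 0 * 1 * 1
      rw [pow_zero, one_mul, mul_one]

/-- The cycle of the image of a point is the image of its cycle. -/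
theorem cycJ_aut (D : Dat V L) (F : Aut V) {τ : L ≃ₐ[k] L}
    (hτ : τ D.t = algebraMap k L F.d * D.t + algebraMap k L F.c)
    {g : Matrix (Fin D.M) (Fin D.M) k} (hl : Lin g D.I)
    {e : EPt D.a D.b} (he : TwE D.p D.q D.a D.b τ g F.e e) (y : WPt V k) :
    Nul D.S (cycJ D (aut F y) - Finsupp.mapDomain (linPt hl) (cycJ D y)) := by
  classical
  have hdisc : ∀ u : Fin 2 → k, disc V (affV F.d F.c u) = F.e ^ 12 * disc V u := by
    intro u
    unfold disc
    rw [F.aevalA, F.aevalB]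
    change 4 * (F.e ^ 4 * MvPolynomial.aeval u V.A) ^ 3 +
      27 * (F.e ^ 6 * MvPolynomial.aeval u V.B) ^ 2 = _
    ring
  obtain ⟨b, rfl⟩ := CX.Pool.Agent.Helper51.EW.exists_mk y
  by_cases hd : disc V b.u = 0
  · rw [aut_mk, cycJ_bad D b hd, cycJ_bad D (autC F b) (by
      change disc V (affV F.d F.c b.u) = 0
      rw [hdisc, hd, mul_zero]), Finsupp.mapDomain_zero, sub_zero]
    exact Nul.zero
  -- normalisation of the coordinates
  obtain ⟨b', hb', hbc⟩ : ∃ b' : Coord V k, WPt.mk b = WPt.mk b' ∧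
      (b'.u 0 = 1 ∨ (b'.u 0 = 0 ∧ b'.u 1 = 1)) := by
    by_cases h0 : b.u 0 = 0
    · have h1 : b.u 1 ≠ 0 := by
        intro h1
        apply b.u_ne
        funext i
        fin_cases i
        · exact h0
        · exact h1
      refine ⟨CX.Pool.Agent.Helper51.EW.scale b (b.u 1)⁻¹ 1 (inv_ne_zero h1) one_ne_zero,
        (CX.Pool.Agent.Helper51.EW.same_scale b _ _ _ _).symm, Or.inr ⟨?_, ?_⟩⟩
      · change (b.u 1)⁻¹ * b.u 0 = 0
        rw [h0, mul_zero]
      · exact inv_mul_cancel₀ h1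
    · exact ⟨CX.Pool.Agent.Helper51.EW.scale b (b.u 0)⁻¹ 1 (inv_ne_zero h0) one_ne_zero,
        (CX.Pool.Agent.Helper51.EW.same_scale b _ _ _ _).symm, Or.inl (inv_mul_cancel₀ h0)⟩
  have hd' : disc V b'.u ≠ 0 := by
    obtain ⟨l, c, hl0, _, h1, _⟩ := CX.Pool.Agent.Helper51.EW.mk_eq_iff.mp hb'
    have e : b'.u = fun i => l * b.u i := funext h1
    unfold disc at hd ⊢
    rw [e, CX.Pool.Agent.Helper51.EW.aeval_smul V.hA, CX.Pool.Agent.Helper51.EW.aeval_smul V.hB]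
    intro h0
    apply hd
    have h2 : l ^ (12 * V.N) * (4 * MvPolynomial.aeval b.u V.A ^ 3 +
        27 * MvPolynomial.aeval b.u V.B ^ 2) = 0 := by
      rw [← h0]
      ring
    exact (mul_eq_zero.mp h2).resolve_left (pow_ne_zero _ hl0)
  rw [hb']
  clear hb' hd b
  obtain ⟨v, l, hb⟩ := exists_over_base D b'.u hbc
  obtain ⟨hs, hA, hB⟩ := hb.scale
  obtain ⟨mo⟩ := exists_model D v hs hA hB
  obtain ⟨a, ha⟩ := WCases.exists_ptJ b' b'.u b'.u_ne rfl hd'
  -- the other point of the base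
  obtain ⟨c, hc⟩ : ∃ c, c = b'.u := ⟨_, rfl⟩
  obtain ⟨c', μ, hμ, hcc, hbb, hratio⟩ : ∃ (c' : Fin 2 → k) (μ : k), μ ≠ 0 ∧
      (∀ i, c' i = μ * affV F.d F.c c i) ∧
      Base D (Place.comap D.hL D.hL (τ : L →ₐ[k] L) v) l c' ∧
      IsRes v (τ (l ^ V.N) / l ^ V.N) (μ ^ V.N) := by
    have hov := over_comap D.hL D.hL (τ : L →ₐ[k] L) v
    rcases hb with ⟨e1, e2, e3⟩ | ⟨e1, e2, e3, e4⟩
    · refine ⟨affV F.d F.c c, 1, one_ne_zero, fun i => (one_mul _).symm, Or.inl ⟨e1, ?_, ?_⟩, ?_⟩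
      · change c 0 = 1
        rw [hc, e2]
      · rw [← hov.isRes_iff D.hL]
        change IsRes v (τ D.t) (F.d * c 1 + F.c * c 0)
        rw [hτ, hc, e2, mul_one]
        exact ((isRes_const F.d).mul e3).add (isRes_const F.c)
      · rw [e1, one_pow, map_one, div_one, one_pow]
        exact isRes_one
    · have ht0 : D.t⁻¹ ≠ 0 := by
        rw [← e1]
        exact (show Base D v l b'.u from Or.inr ⟨e1, e2, e3, e4⟩).l_ne
      have ht : D.t ≠ 0 := fun h0 => ht0 (by rw [h0, inv_zero])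
      have h1 : IsRes v (algebraMap k L F.d + algebraMap k L F.c * D.t⁻¹) F.d := by
        have := (isRes_const (v := v) F.d).add ((isRes_const (v := v) F.c).mul e4)
        rwa [mul_zero, add_zero] at this
      have h1' : IsRes v (algebraMap k L F.d + algebraMap k L F.c * D.t⁻¹)⁻¹ F.d⁻¹ :=
        h1.inv D.hL F.hd
      have hmul : algebraMap k L F.d * D.t + algebraMap k L F.c =
          D.t * (algebraMap k L F.d + algebraMap k L F.c * D.t⁻¹) := by
        rw [mul_add, mul_comm (algebraMap k L F.c), ← mul_assoc D.t, mul_inv_cancel₀ ht, one_mul,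
          mul_comm D.t]
      refine ⟨![0, 1], F.d⁻¹, inv_ne_zero F.hd, fun i => ?_, Or.inr ⟨e1, rfl, rfl, ?_⟩, ?_⟩
      · fin_cases i
        · change (0 : k) = F.d⁻¹ * c 0
          rw [hc, e2, mul_zero]
        · change (1 : k) = F.d⁻¹ * (F.d * c 1 + F.c * c 0)
          rw [hc, e2, e3, mul_one, mul_zero, add_zero, inv_mul_cancel₀ F.hd]
      · rw [← hov.isRes_iff D.hL]
        change IsRes v (τ D.t⁻¹) 0
        rw [map_inv₀, hτ, hmul, mul_inv]
        have := e4.mul h1'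
        rwa [zero_mul] at this
      · rw [e1, map_pow, map_inv₀, hτ, hmul, mul_inv, mul_pow, mul_div_assoc, mul_comm,
          div_mul_cancel₀ _ (pow_ne_zero _ ht0)]
        exact h1'.pow V.N
  have hov := over_comap D.hL D.hL (τ : L →ₐ[k] L) v
  obtain ⟨hs', hA', hB'⟩ := hbb.scale
  obtain ⟨mo'⟩ := exists_model D _ hs' hA' hB'
  obtain ⟨ε, hεμ⟩ : ∃ ε : k, ε = μ ^ V.N * F.e := ⟨_, rfl⟩
  have hε : ε ≠ 0 := by
    rw [hεμ]
    exact mul_ne_zero (pow_ne_zero _ hμ) F.he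
  have ecc : c' = fun i => μ * affV F.d F.c c i := funext hcc
  have fA : MvPolynomial.aeval c' V.A = ε ^ 4 * MvPolynomial.aeval c V.A := by
    rw [ecc, CX.Pool.Agent.Helper51.EW.aeval_smul V.hA, F.aevalA]
    change μ ^ (4 * V.N) * (F.e ^ 4 * MvPolynomial.aeval c V.A) = _
    rw [hεμ]; ring
  have fB : MvPolynomial.aeval c' V.B = ε ^ 6 * MvPolynomial.aeval c V.B := by
    rw [ecc, CX.Pool.Agent.Helper51.EW.aeval_smul V.hB, F.aevalB]
    change μ ^ (6 * V.N) * (F.e ^ 6 * MvPolynomial.aeval c V.B) = _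
    rw [hεμ]; ring
  have hd2 : disc V c' ≠ 0 := by
    have h1 : disc V c' = ε ^ 12 * disc V c := by
      unfold disc
      rw [fA, fB]; ring
    rw [h1, hc]
    exact mul_ne_zero (pow_ne_zero _ hε) hd'
  subst hc
  have htr : ![(1 : L), algebraMap k L F.d * D.t + algebraMap k L F.c] =
      affV F.d F.c ![(1 : L), D.t] := by
    funext i
    fin_cases i
    · rfl
    · change algebraMap k L F.d * D.t + algebraMap k L F.c =
        algebraMap k L F.d * D.t + algebraMap k L F.c * 1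
      rw [mul_one]
  have hτa : τ D.a = algebraMap k L F.e ^ 4 * D.a := by
    have h := map_cA D (τ : L →ₐ[k] L)
    have h2 : ((τ : L →ₐ[k] L) D.t) = algebraMap k L F.d * D.t + algebraMap k L F.c := hτ
    rw [h2] at h
    have h3 : MvPolynomial.aeval ![(1 : L), algebraMap k L F.d * D.t + algebraMap k L F.c] V.A =
        algebraMap k L F.e ^ 4 * D.a := by
      rw [htr]
      exact F.aevalA _
    exact (h.trans h3)
  have hτb : τ D.b = algebraMap k L F.e ^ 6 * D.b := by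
    have h := map_cB D (τ : L →ₐ[k] L)
    have h2 : ((τ : L →ₐ[k] L) D.t) = algebraMap k L F.d * D.t + algebraMap k L F.c := hτ
    rw [h2] at h
    have h3 : MvPolynomial.aeval ![(1 : L), algebraMap k L F.d * D.t + algebraMap k L F.c] V.B =
        algebraMap k L F.e ^ 6 * D.b := by
      rw [htr]
      exact F.aevalB _
    exact (h.trans h3)
  have n1 := cycJ_eq D hb hd' b'.u_ne mo a
  have n2 := cycJ_eq D hbb hd2 hbb.c_ne mo' (scF ε hε fA fB a)
  have n3 := twist_cycE F.he hτa hτb hl he hov mo mo' hε hεμ hratio fA fB hd' a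
  rw [← ha] at n1
  rw [← ptJ_aut F hμ b'.u_ne hbb.c_ne hcc hε hεμ fA fB a, ← ha] at n2
  have n4 := nul_map hl n1
  have e4 : Finsupp.mapDomain (linPt hl) (cycJ D (WPt.mk b') - mo.cyc a) =
      Finsupp.mapDomain (linPt hl) (cycJ D (WPt.mk b')) -
        Finsupp.mapDomain (linPt hl) (mo.cyc a) := by
    change Finsupp.lmapDomain ℤ ℤ (linPt hl) _ = _
    rw [map_sub]
    rfl
  rw [e4] at n4
  have n5 := (n2.sub n3).sub n4
  have e5 : cycJ D (aut F (WPt.mk b')) - mo'.cyc (scF ε hε fA fB a) -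
      (Finsupp.mapDomain (linPt hl) (mo.cyc a) - mo'.cyc (scF ε hε fA fB a)) -
      (Finsupp.mapDomain (linPt hl) (cycJ D (WPt.mk b')) -
        Finsupp.mapDomain (linPt hl) (mo.cyc a)) =
      cycJ D (aut F (WPt.mk b')) - Finsupp.mapDomain (linPt hl) (cycJ D (WPt.mk b')) := by
    abel
  rwa [e5] at n5

end CX.CHV
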