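import Mathlib
import Pool.Agent.Helper9.NS
import Pool.Agent.Helper40.CX.CHV.Twist
import Pool.Agent.Helper40.CX.H21TO.Spec

/-!
# The action of the automorphisms of the splitting field in coordinates
-/

set_option autoImplicit false
set_option linter.unusedSectionVars false

namespace CX.CHV

open CX.CHI CX.VC CX.VF Function Polynomial
open CX.Pool.Agent.Helper51.EW (Wei Coord WPt aff zeroPt)
open CX.Pool.Agent.Helper21.TO

universe u

variable {k : Type u} [Field k] {L Ω : Type u} [Field L] [Algebra k L]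
  [Field Ω] [Algebra k Ω] [Algebra L Ω] [IsScalarTower k L Ω] {M : ℕ}

/-- `z` specialises to `c`. -/
private def SpV {Ω K : Type u} [Field Ω] [Field K] (R : Subring Ω) (h : R →+* K) (z : Ω) (c : K) :
    Prop := ∃ hz : z ∈ R, h ⟨z, hz⟩ = c

section sp

variable {K : Type u} [Field K] {R : Subring Ω} {h : R →+* K} {z w : Ω} {c d : K}

private lemma SpV.add (h1 : SpV R h z c) (h2 : SpV R h w d) : SpV R h (z + w) (c + d) := by
  obtain ⟨hz, rfl⟩ := h1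
  obtain ⟨hw, rfl⟩ := h2
  exact ⟨R.add_mem hz hw, h.map_add ⟨z, hz⟩ ⟨w, hw⟩⟩

private lemma SpV.mul (h1 : SpV R h z c) (h2 : SpV R h w d) : SpV R h (z * w) (c * d) := by
  obtain ⟨hz, rfl⟩ := h1
  obtain ⟨hw, rfl⟩ := h2
  exact ⟨R.mul_mem hz hw, h.map_mul ⟨z, hz⟩ ⟨w, hw⟩⟩

private lemma SpV.sub (h1 : SpV R h z c) (h2 : SpV R h w d) : SpV R h (z - w) (c - d) := by
  obtain ⟨hz, rfl⟩ := h1
  obtain ⟨hw, rfl⟩ := h2
  exact ⟨R.sub_mem hz hw, h.map_sub ⟨z, hz⟩ ⟨w, hw⟩⟩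

private lemma SpV.zero : SpV R h (0 : Ω) 0 := ⟨R.zero_mem, h.map_zero⟩

private lemma SpV.one : SpV R h (1 : Ω) 1 := ⟨R.one_mem, h.map_one⟩

private lemma SpV.pow (h1 : SpV R h z c) (n : ℕ) : SpV R h (z ^ n) (c ^ n) := by
  obtain ⟨hz, rfl⟩ := h1
  exact ⟨R.pow_mem hz n, h.map_pow ⟨z, hz⟩ n⟩

private lemma SpV.unique (h1 : SpV R h z c) (h2 : SpV R h z d) : c = d := by
  obtain ⟨hz, rfl⟩ := h1
  obtain ⟨hw, rfl⟩ := h2
  rfl

private lemma SpV.div (hinv : ∀ (z : Ω) (hz : z ∈ R), h ⟨z, hz⟩ ≠ 0 → z⁻¹ ∈ R)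
    (h1 : SpV R h z c) (h2 : SpV R h w d) (hd : d ≠ 0) : SpV R h (z / w) (c / d) := by
  obtain ⟨hw, hwd⟩ := id h2
  have hw0 : w ≠ 0 := by
    rintro rfl
    exact hd (h2.unique SpV.zero)
  have hi : w⁻¹ ∈ R := hinv w hw (by rw [hwd]; exact hd)
  have h3 : SpV R h (w⁻¹) (h ⟨w⁻¹, hi⟩) := ⟨hi, rfl⟩
  have h4 := h2.mul h3
  rw [mul_inv_cancel₀ hw0] at h4
  have h5 := h4.unique SpV.one
  have h6 : h ⟨w⁻¹, hi⟩ = d⁻¹ := (eq_inv_of_mul_eq_one_right h5)
  rw [h6] at h3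
  rw [div_eq_mul_inv, div_eq_mul_inv]
  exact h1.mul h3

private lemma SpV.poly {φ : L →+* Ω} {ψ : L →+* K} (h0 : ∀ l, SpV R h (φ l) (ψ l))
    (h1 : SpV R h z c) (P : L[X]) : SpV R h (P.eval₂ φ z) (P.eval₂ ψ c) := by
  induction P using Polynomial.induction_on' with
  | add p q hp hq => rw [eval₂_add, eval₂_add]; exact hp.add hq
  | monomial n a => rw [eval₂_monomial, eval₂_monomial]; exact (h0 a).mul (h1.pow n)

end sp

private lemma specV (a b : L) (x y : Ω) (hx : Transcendental L x)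
    (he : y ^ 2 = x ^ 3 + algebraMap L Ω a * x + algebraMap L Ω b) (K : Type u) [Field K]
    [Algebra k K] (ι : L →ₐ[k] K) (x1 y1 : K) (h1 : y1 ^ 2 = x1 ^ 3 + ι a * x1 + ι b) :
    ∃ (R : Subring Ω) (h : R →+* K), (∀ l : L, SpV R h (algebraMap L Ω l) (ι l)) ∧
      SpV R h x x1 ∧ SpV R h y y1 ∧ ∀ (z : Ω) (hz : z ∈ R), h ⟨z, hz⟩ ≠ 0 → z⁻¹ ∈ R :=
  spec (algebraMap L Ω) a b x y (fun g hg h0 => hg ((transcendental_iff.mp hx) g h0)) he
    (ι : L →+* K) x1 y1 h1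

private lemma sp_gV {K : Type u} [Field K] [Algebra k K] {R : Subring Ω} {h : R →+* K}
    {x y : Ω} {x1 y1 : K} (ι : L →ₐ[k] K) (hl : ∀ l : L, SpV R h (algebraMap L Ω l) (ι l))
    (hx1 : SpV R h x x1) (hy1 : SpV R h y y1) (p q : Fin M → L[X]) (i : Fin M) :
    SpV R h (aeval x (p i) + aeval x (q i) * y) (ev p q ι x1 y1 i) :=
  (SpV.poly (ψ := (ι : L →+* K)) hl hx1 (p i)).add
    ((SpV.poly (ψ := (ι : L →+* K)) hl hx1 (q i)).mul hy1)

private lemma sigma_polyV (σ : Ω ≃ₐ[k] Ω) (τ : L ≃ₐ[k] L)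
    (hτ : ∀ z, σ (algebraMap L Ω z) = algebraMap L Ω (τ z)) (x : Ω) (P : L[X]) :
    σ (aeval x P) = P.eval₂ ((algebraMap L Ω).comp (τ : L →+* L)) (σ x) := by
  induction P using Polynomial.induction_on' with
  | add p q hp hq => rw [map_add, map_add, eval₂_add, hp, hq]
  | monomial n a =>
    rw [aeval_monomial, eval₂_monomial, map_mul, map_pow, hτ]
    rfl

private lemma crossV (p q : Fin M → L[X]) {x y : Ω} {ξ : Fin M → Ω} {c : Ω}
    (hg : ∀ i, c * ξ i = aeval x (p i) + aeval x (q i) * y) (σ : Ω ≃ₐ[k] Ω) (τ : L ≃ₐ[k] L)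
    (hτ : ∀ z, σ (algebraMap L Ω z) = algebraMap L Ω (τ z)) {g : Matrix (Fin M) (Fin M) k}
    (hlin : ∀ i, σ (ξ i) = mulV g ξ i)
    {K : Type u} [Field K] [Algebra k K] {R : Subring Ω} {h : R →+* K} {x1 y1 x2 y2 : K}
    (ι : L →ₐ[k] K) (hl : ∀ l : L, SpV R h (algebraMap L Ω l) (ι l))
    (hx1 : SpV R h x x1) (hy1 : SpV R h y y1) (hx2 : SpV R h (σ x) x2)
    (hy2 : SpV R h (σ y) y2) (i j : Fin M) :
    mulV g (ev p q ι x1 y1) i * ev p q (ι.comp (τ : L →ₐ[k] L)) x2 y2 j =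
      mulV g (ev p q ι x1 y1) j * ev p q (ι.comp (τ : L →ₐ[k] L)) x2 y2 i := by
  have hs : ∀ i, SpV R h (σ (c * ξ i)) (ev p q (ι.comp (τ : L →ₐ[k] L)) x2 y2 i) := by
    intro i
    rw [hg i, map_add, map_mul, sigma_polyV σ τ hτ, sigma_polyV σ τ hτ]
    have hl' : ∀ l : L, SpV R h (((algebraMap L Ω).comp (τ : L →+* L)) l)
        (((ι.comp (τ : L →ₐ[k] L) : L →ₐ[k] K) : L →+* K) l) := fun l => hl (τ l)
    exact (SpV.poly hl' hx2 (p i)).add ((SpV.poly hl' hx2 (q i)).mul hy2)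
  have hg' : ∀ i, SpV R h (c * ξ i) (ev p q ι x1 y1 i) := by
    intro i
    rw [hg i]
    exact sp_gV ι hl hx1 hy1 p q i
  have hgg : ∀ i, SpV R h (mulV g (fun i => c * ξ i) i) (mulV g (ev p q ι x1 y1) i) := by
    intro i
    have h3 : ∀ s : Finset (Fin M), SpV R h (∑ j ∈ s, algebraMap k Ω (g i j) * (c * ξ j))
        (∑ j ∈ s, algebraMap k K (g i j) * ev p q ι x1 y1 j) := by
      intro s
      induction s using Finset.induction_on with
      | empty => rw [Finset.sum_empty, Finset.sum_empty]; exact SpV.zero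
      | insert a s ha ih =>
        rw [Finset.sum_insert ha, Finset.sum_insert ha]
        refine SpV.add (SpV.mul ?_ (hg' a)) ih
        have h2 := hl (algebraMap k L (g i a))
        rw [← IsScalarTower.algebraMap_apply k L Ω, AlgHom.commutes] at h2
        exact h2
    exact h3 Finset.univ
  have e : mulV g (fun i => c * ξ i) i * σ (c * ξ j) =
      mulV g (fun i => c * ξ i) j * σ (c * ξ i) := by
    rw [map_mul, map_mul, hlin, hlin, mulV_smul]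
    ring
  have h1 := (hgg i).mul (hs j)
  rw [e] at h1
  exact h1.unique ((hgg j).mul (hs i))

theorem twE_of_zero (p q : Fin M → L[X]) (a b : L) (x y : Ω) (hx : Transcendental L x)
    (he : y ^ 2 = x ^ 3 + algebraMap L Ω a * x + algebraMap L Ω b) (ξ : Fin M → Ω) (c : Ω)
    (hg : ∀ i, c * ξ i = aeval x (p i) + aeval x (q i) * y) (σ : Ω ≃ₐ[k] Ω) (τ : L ≃ₐ[k] L)
    (hτ : ∀ z, σ (algebraMap L Ω z) = algebraMap L Ω (τ z)) {g : Matrix (Fin M) (Fin M) k}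
    (hlin : ∀ i, σ (ξ i) = mulV g ξ i) {ε : k}
    (h1 : σ x = algebraMap k Ω ε ^ 2 * x) (h2 : σ y = algebraMap k Ω ε ^ 3 * y) :
    TwE p q a b τ g ε 0 := by
  intro K _ _ ι x1 y1 x1' y1' h h' hadd _ i j
  obtain ⟨R, hR, hl, hx1, hy1, hinv⟩ := specV a b x y hx he K ι x1 y1 (sw_nonsingular.mp h).1
  have e : mapPt ι (0 : EPt a b) = 0 := rfl
  rw [e, add_zero] at hadd
  have hxy : x1 = x1' ∧ y1 = y1' := by
    injection hadd with ha hb
    exact ⟨ha, hb⟩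
  obtain ⟨rfl, rfl⟩ := hxy
  have hε : SpV R hR (algebraMap k Ω ε) (algebraMap k K ε) := by
    have h3 := hl (algebraMap k L ε)
    rwa [← IsScalarTower.algebraMap_apply k L Ω, AlgHom.commutes] at h3
  exact crossV p q hg σ τ hτ hlin ι hl hx1 hy1 (by rw [h1]; exact (hε.pow 2).mul hx1)
    (by rw [h2]; exact (hε.pow 3).mul hy1) i j

theorem twE_of_some (p q : Fin M → L[X]) (a b : L) (x y : Ω) (hx : Transcendental L x)
    (he : y ^ 2 = x ^ 3 + algebraMap L Ω a * x + algebraMap L Ω b) (ξ : Fin M → Ω) (c : Ω)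
    (hg : ∀ i, c * ξ i = aeval x (p i) + aeval x (q i) * y) (σ : Ω ≃ₐ[k] Ω) (τ : L ≃ₐ[k] L)
    (hτ : ∀ z, σ (algebraMap L Ω z) = algebraMap L Ω (τ z)) {g : Matrix (Fin M) (Fin M) k}
    (hlin : ∀ i, σ (ξ i) = mulV g ξ i) {ε : k}
    (e f : L) (h : (sw a b).toAffine.Nonsingular e f) {x2 y2 : Ω}
    (hx2 : x2 = ((y - algebraMap L Ω f) / (x - algebraMap L Ω e)) ^ 2 - x - algebraMap L Ω e)
    (hy2 : y2 = (y - algebraMap L Ω f) / (x - algebraMap L Ω e) * (x - x2) - y)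
    (h1 : σ x = algebraMap k Ω ε ^ 2 * x2) (h2 : σ y = algebraMap k Ω ε ^ 3 * y2) :
    TwE p q a b τ g ε (EPt.mk e f h) := by
  intro K _ _ ι x1 y1 x1' y1' hn hn' hadd hne i j
  obtain ⟨R, hR, hl, hx1, hy1, hinv⟩ := specV a b x y hx he K ι x1 y1 (sw_nonsingular.mp hn).1
  have hxe : x1 ≠ ι e := hne e f h rfl
  have e1 : mapPt ι (EPt.mk e f h) = EPt.mk (ι e) (ι f) (nonsingular_map ι h) := rfl
  rw [e1] at hadd
  have e2 := WeierstrassCurve.Affine.Point.add_of_X_ne (h₁ := hn)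
    (h₂ := nonsingular_map ι h) hxe
  rw [e2] at hadd
  have hxy : ((y1 - ι f) / (x1 - ι e)) ^ 2 - x1 - ι e = x1' ∧
      (y1 - ι f) / (x1 - ι e) * (x1 - x1') - y1 = y1' := by
    injection hadd with ha hb
    rw [WeierstrassCurve.Affine.slope_of_X_ne hxe] at ha hb
    have ha' : ((y1 - ι f) / (x1 - ι e)) ^ 2 - x1 - ι e = x1' := by
      rw [← ha]
      simp only [WeierstrassCurve.Affine.addX]
      ring
    refine ⟨ha', ?_⟩
    rw [← ha', ← hb]
    simp only [WeierstrassCurve.Affine.addY, WeierstrassCurve.Affine.negY,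
      WeierstrassCurve.Affine.negAddY, WeierstrassCurve.Affine.addX]
    ring
  obtain ⟨ha, hb⟩ := hxy
  have hlam : SpV R hR ((y - algebraMap L Ω f) / (x - algebraMap L Ω e))
      ((y1 - ι f) / (x1 - ι e)) :=
    SpV.div hinv (hy1.sub (hl f)) (hx1.sub (hl e)) (sub_ne_zero.mpr hxe)
  have hsx : SpV R hR x2 x1' := by
    rw [hx2, ← ha]
    exact ((hlam.pow 2).sub hx1).sub (hl e)
  have hsy : SpV R hR y2 y1' := by
    rw [hy2, ← hb]
    exact (hlam.mul (hx1.sub hsx)).sub hy1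
  have hε : SpV R hR (algebraMap k Ω ε) (algebraMap k K ε) := by
    have h3 := hl (algebraMap k L ε)
    rwa [← IsScalarTower.algebraMap_apply k L Ω, AlgHom.commutes] at h3
  exact crossV p q hg σ τ hτ hlin ι hl hx1 hy1 (by rw [h1]; exact (hε.pow 2).mul hsx)
    (by rw [h2]; exact (hε.pow 3).mul hsy) i j


end CX.CHV
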