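import Mathlib
import Pool.Agent.Helper9.NS
import Pool.Agent.Helper40.CX.CHV.Equi
import Pool.Agent.Helper40.CX.CHV.TwOf
import Pool.Agent.Helper40.CX.CHI.Transfer
import Pool.Agent.Helper40.CX.H21TO.Final

/-!
# Genus one fibrations with an automorphism: arbitrary projective models
-/

set_option autoImplicit false
set_option linter.unusedSectionVars false

namespace CX.CHV

open CX.VC CX.VF Function Polynomial CX.CHI
open CX.Pool.Agent.Helper51.EW (Wei Coord WPt aff zeroPt)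
open CX.Pool.Agent.Helper21.TO

universe u

variable {k : Type u} [Field k] {V : Wei k} {L Ω : Type u} [Field L] [Algebra k L] [Field Ω]
  [Algebra k Ω] [Algebra L Ω] [IsScalarTower k L Ω]

/-- `σ` acts on the coordinate of the line as the automorphism `F`, and `σ (x, y)` is the image under
`(x, y) ↦ (e ^ 2 x, e ^ 3 y)` of the sum of `(x, y)` and the point at infinity or the point `(a, b)`. -/
structure Acts (T : Torsor V L Ω) (F : Aut V) (σ : Ω ≃ₐ[k] Ω) : Prop where
  stable : ∃ τ : L ≃ₐ[k] L, ∀ z : L, σ (algebraMap L Ω z) = algebraMap L Ω (τ z)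
  coord : σ (algebraMap L Ω T.t) = algebraMap k Ω F.d * algebraMap L Ω T.t + algebraMap k Ω F.c
  translation : (σ T.x = algebraMap k Ω F.e ^ 2 * T.x ∧ σ T.y = algebraMap k Ω F.e ^ 3 * T.y) ∨
    ∃ (a b : L) (x2 y2 : Ω),
      b ^ 2 = a ^ 3 + MvPolynomial.aeval ![1, T.t] V.A * a + MvPolynomial.aeval ![1, T.t] V.B ∧
      x2 = ((T.y - algebraMap L Ω b) / (T.x - algebraMap L Ω a)) ^ 2 - T.x - algebraMap L Ω a ∧
      y2 = (T.y - algebraMap L Ω b) / (T.x - algebraMap L Ω a) * (T.x - x2) - T.y ∧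
      σ T.x = algebraMap k Ω F.e ^ 2 * x2 ∧ σ T.y = algebraMap k Ω F.e ^ 3 * y2

variable [IsAlgClosed k] [CX.Good k]

/-- Voisin's property for the characters of an automorphism of a genus one fibration, given the
property for the Weierstrass model, on every projective model on which the automorphism acts by a
linear map. -/
theorem voisinChi_torsorV (hΔ : 4 * V.A ^ 3 + 27 * V.B ^ 2 ≠ 0) (hmin : Minimal V)
    (T : Torsor V L Ω) (F : Aut V) {M : ℕ} (ξ : Fin M → Ω) (hξ : ξ ≠ 0)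
    (hfix : ∀ σ ∈ T.G, ∀ i, σ (ξ i) = ξ i) {σ₀ : Ω ≃ₐ[k] Ω} (hσ₀ : Acts T F σ₀)
    {g : Matrix (Fin M) (Fin M) k} (hlin : ∀ i, σ₀ (ξ i) = mulV g ξ i)
    (hl : Lin g (van k ξ)) {χ : ℂ} (hχ : χ ≠ 1) {n : ℕ}
    (hJ : VoisinChi V.surface (aut F) χ n) :
    VoisinChi (proj k (van k ξ)) (linPt hl) χ n := by
  classical
  have hL0 : CX.Good L := CX.Good.ext k
  have hdisc : 4 * cA V T.t ^ 3 + 27 * cB V T.t ^ 2 ≠ 0 := disc_ne_zero hΔ T.ht
  obtain ⟨c, p, q, hc, hg⟩ := exists_num _ _ T.x T.y T.eqn T.gen ξ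
  obtain ⟨H, hfin, hH1, hH2⟩ := exists_res_subgroup T.G T.finG T.stable
  have hinj : Function.Injective (algebraMap L Ω) := (algebraMap L Ω).injective
  have hne : ∃ i, p i ≠ 0 ∨ q i ≠ 0 := by
    by_contra hcon
    push Not at hcon
    obtain ⟨i, hi⟩ := Function.ne_iff.mp hξ
    have h1 := hg i
    rw [(hcon i).1, (hcon i).2, map_zero, zero_mul, zero_add] at h1
    exact hi ((mul_eq_zero.mp h1).resolve_left hc)
  let D : Dat V L :=
    { hL := T.hL
      t := T.t
      ht := T.ht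
      hΔ := hdisc
      H := H
      finH := hfin
      fixt := by
        intro τ hτ
        obtain ⟨σ, hσ, h⟩ := hH1 τ hτ
        apply hinj
        rw [← h]
        exact T.fixt σ hσ
      fixed := by
        intro z hz
        apply T.fixed
        intro σ hσ
        obtain ⟨τ, hτ, h⟩ := hH2 σ hσ
        rw [h, hz τ hτ]
      r := T.r
      hr := T.hr
      s := T.s
      hs := T.hs
      M := M
      I := van k ξ
      p := p
      q := q
      ne := hne
      sat := by
        intro K _ _ ι x y h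
        exact sat_of p q _ _ T.x T.y T.hx T.eqn ξ c hg K ι x y h
      tw := by
        intro τ hτ
        obtain ⟨σ, hσ, h⟩ := hH1 τ hτ
        rcases T.translation σ hσ with ⟨h1, h2⟩ | ⟨e, f, h0, h1, h2⟩
        · exact ⟨0, tw_of_zero p q _ _ T.x T.y T.hx T.eqn ξ c hg σ τ h (hfix σ hσ) h1 h2⟩
        · exact ⟨_, tw_of_some p q _ _ T.x T.y T.hx T.eqn ξ c hg σ τ h (hfix σ hσ) e f
            (nonsingular_of_disc hdisc h0) h1 h2⟩ }
  have hev : ev p q (IsScalarTower.toAlgHom k L Ω) T.x T.y = fun i => c * ξ i := by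
    funext i
    rw [hg i]
    rfl
  have hlink : Link V.surface D.S (cycJ D) := by
    refine link hΔ hmin D (IsScalarTower.toAlgHom k L Ω) T.x T.y T.eqn ?_
    intro P m' hP h
    change MvPolynomial.aeval (ev p q (IsScalarTower.toAlgHom k L Ω) T.x T.y) P = 0 at h
    rw [hev, aeval_smul' hP] at h
    exact (mul_eq_zero.mp h).resolve_left (pow_ne_zero _ hc)
  obtain ⟨τ, hτσ⟩ := hσ₀.stable
  have hτw : τ D.t = algebraMap k L F.d * D.t + algebraMap k L F.c := by
    apply hinj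
    rw [← hτσ]
    change σ₀ (algebraMap L Ω T.t) = algebraMap L Ω (algebraMap k L F.d * T.t + algebraMap k L F.c)
    rw [hσ₀.coord, map_add, map_mul, ← IsScalarTower.algebraMap_apply,
      ← IsScalarTower.algebraMap_apply]
  obtain ⟨e, he⟩ : ∃ e : EPt D.a D.b, TwE D.p D.q D.a D.b τ g F.e e := by
    rcases hσ₀.translation with ⟨h1, h2⟩ | ⟨a, b, x2, y2, h0, h1, h2, h3, h4⟩
    · exact ⟨0, twE_of_zero p q _ _ T.x T.y T.hx T.eqn ξ c hg σ₀ τ hτσ hlin h1 h2⟩
    · exact ⟨_, twE_of_some p q _ _ T.x T.y T.hx T.eqn ξ c hg σ₀ τ hτσ hlin a b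
        (nonsingular_of_disc hdisc h0) h1 h2 h3 h4⟩
  exact transferChi hlink (fun y => cycJ_aut D F hτw hl he y) hχ hJ

end CX.CHV
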