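import Mathlib
import Pool.Agent.Helper40.CX.BC.FinalN
import Pool.Agent.Helper40.CX.CHI.Const
import Pool.Agent.Helper40.CX.CHV.Final

/-!
# Genus one fibrations with an automorphism: extension of the field of constants
-/

set_option autoImplicit false

namespace CX.CHV

open IntermediateField CX.CHI CX.VC CX.Pool.Agent.Helper21.TO CX.BC
open CX.Pool.Agent.Helper51.EW (Wei)

theorem map_affF {O : Type} [Field O] (d c : O) (Ω : Type) [Field Ω] [Algebra O Ω]
    (P : MvPolynomial (Fin 2) O) : MvPolynomial.map (algebraMap O Ω)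
      (MvPolynomial.bind₁ (affF d c) P) =
        MvPolynomial.bind₁ (affF (algebraMap O Ω d) (algebraMap O Ω c))
          (MvPolynomial.map (algebraMap O Ω) P) := by
  rw [MvPolynomial.map_bind₁]
  congr 2
  funext i
  fin_cases i
  · change MvPolynomial.map (algebraMap O Ω) (MvPolynomial.X 0) = MvPolynomial.X 0
    simp
  · change MvPolynomial.map (algebraMap O Ω) (MvPolynomial.C d * MvPolynomial.X 1 +
      MvPolynomial.C c * MvPolynomial.X 0) =
        MvPolynomial.C (algebraMap O Ω d) * MvPolynomial.X 1 +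
          MvPolynomial.C (algebraMap O Ω c) * MvPolynomial.X 0
    simp

/-- The automorphism after an extension of the field of constants. -/
noncomputable def Aut.bc {O : Type} [Field O] {V : Wei O} (F : Aut V) (Ω : Type) [Field Ω]
    [Algebra O Ω] : Aut (bcW V Ω) where
  d := algebraMap O Ω F.d
  c := algebraMap O Ω F.c
  e := algebraMap O Ω F.e
  hd := (_root_.map_ne_zero _).mpr F.hd
  he := (_root_.map_ne_zero _).mpr F.he
  hA := by
    change MvPolynomial.bind₁ _ (MvPolynomial.map (algebraMap O Ω) V.A) =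
      _ * MvPolynomial.map (algebraMap O Ω) V.A
    rw [← map_affF, F.hA, map_mul, MvPolynomial.map_C, map_pow]
  hB := by
    change MvPolynomial.bind₁ _ (MvPolynomial.map (algebraMap O Ω) V.B) =
      _ * MvPolynomial.map (algebraMap O Ω) V.B
    rw [← map_affF, F.hB, map_mul, MvPolynomial.map_C, map_pow]

section

variable {O Ω L E B M : Type} [Field O] [Field Ω] [Field L] [Field E] [Field B] [Field M]
  [Algebra O Ω] [Algebra O L] [Algebra O E] [Algebra L E] [IsScalarTower O L E] [Algebra Ω B]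
  [Algebra O M] {V : Wei O}

/-- The restriction of a lift to the field generated by a stable subfield. -/
theorem exists_restrict (i : E →+* B) (f : M →+* E) (s : M ≃+* M) (σ₀ : E →+* E)
    (hs : ∀ z, f (s z) = σ₀ (f z)) (σ' : B ≃ₐ[Ω] B) (hσ' : ∀ z, σ' (i z) = i (σ₀ z)) :
    ∃ σF : cs Ω i f ≃ₐ[Ω] cs Ω i f, ∀ z : cs Ω i f, ((σF z : cs Ω i f) : B) = σ' (z : B) := by
  have hmap : ∀ z : cs Ω i f, σ' (z : B) ∈ cs Ω i f := by
    rintro ⟨z, hz⟩
    change σ' z ∈ cs Ω i f
    change z ∈ adjoin Ω (Set.range (i.comp f)) at hz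
    induction hz using adjoin_induction with
    | mem x hx =>
      obtain ⟨x, rfl⟩ := hx
      change σ' (i (f x)) ∈ _
      rw [hσ', ← hs]
      exact (csm Ω i f (s x)).2
    | algebraMap c => rw [AlgEquiv.commutes]; exact IntermediateField.algebraMap_mem _ _
    | add x y _ _ hx hy => rw [map_add]; exact add_mem hx hy
    | inv x _ hx => rw [map_inv₀]; exact inv_mem hx
    | mul x y _ _ hx hy => rw [map_mul]; exact mul_mem hx hy
  let σG : cs Ω i f →ₐ[Ω] cs Ω i f :=
    ((σ' : B →ₐ[Ω] B).comp (cs Ω i f).val).codRestrict (cs Ω i f).toSubalgebra hmap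
  have hsurj : Function.Surjective σG := by
    have h1 : ∀ z (hz : z ∈ cs Ω i f), ∃ y : cs Ω i f, σ' (y : B) = z := by
      intro z hz
      change z ∈ adjoin Ω (Set.range (i.comp f)) at hz
      induction hz using adjoin_induction with
      | mem x hx =>
        obtain ⟨x, rfl⟩ := hx
        refine ⟨csm Ω i f (s.symm x), ?_⟩
        change σ' (i (f (s.symm x))) = i (f x)
        rw [hσ', ← hs, RingEquiv.apply_symm_apply]
      | algebraMap c =>
        exact ⟨algebraMap Ω _ c, σ'.commutes c⟩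
      | add x y _ _ hx hy =>
        obtain ⟨a, ha⟩ := hx
        obtain ⟨b, hb⟩ := hy
        refine ⟨a + b, ?_⟩
        change σ' ((a : B) + b) = x + y
        rw [map_add, ha, hb]
      | inv x _ hx =>
        obtain ⟨a, ha⟩ := hx
        refine ⟨a⁻¹, ?_⟩
        change σ' ((a : B)⁻¹) = x⁻¹
        rw [map_inv₀, ha]
      | mul x y _ _ hx hy =>
        obtain ⟨a, ha⟩ := hx
        obtain ⟨b, hb⟩ := hy
        refine ⟨a * b, ?_⟩
        change σ' ((a : B) * b) = x * y
        rw [map_mul, ha, hb]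
    rintro ⟨z, hz⟩
    obtain ⟨y, hy⟩ := h1 z hz
    exact ⟨y, Subtype.ext hy⟩
  exact ⟨AlgEquiv.ofBijective σG ⟨σG.toRingHom.injective, hsurj⟩, fun z => rfl⟩

/-- The action after an extension of the field of constants. -/
theorem Acts.bc [IsAlgClosed O] [Good O] [IsAlgClosed Ω] [Good Ω] {T : Torsor V L E} {F : Aut V}
    {σ₀ : E ≃ₐ[O] E} (h : Acts T F σ₀) {i : E →+* B} (hi : IsConst O Ω E B i)
    (hl : ∀ σ : E ≃ₐ[O] E, ∃ σ' : B ≃ₐ[Ω] B, ∀ z, σ' (i z) = i (σ z))
    {σ' : B ≃ₐ[Ω] B} (hσ' : ∀ z, σ' (i z) = i (σ₀ z)) : Acts (tors T hi hl) (F.bc Ω) σ' where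
  stable := by
    obtain ⟨τ, hτ⟩ := h.stable
    obtain ⟨σF, hσF⟩ := exists_restrict i (algebraMap L E) (τ : L ≃+* L) (σ₀ : E →+* E)
      (fun z => (hτ z).symm) σ' hσ'
    exact ⟨σF, fun z => (hσF z).symm⟩
  coord := by
    change σ' (i (algebraMap L E T.t)) = algebraMap Ω B (algebraMap O Ω F.d) *
      i (algebraMap L E T.t) + algebraMap Ω B (algebraMap O Ω F.c)
    rw [hσ', h.coord, map_add, map_mul, hi.comm, hi.comm]
  translation := by
    have hj : IsConst O Ω L (cs Ω i (algebraMap L E)) (csm Ω i (algebraMap L E)) :=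
      hi.sub (IsScalarTower.toAlgHom O L E)
    have e2 : ∀ n : ℕ, i (algebraMap O E F.e ^ n) = algebraMap Ω B (algebraMap O Ω F.e) ^ n := by
      intro n
      rw [map_pow, hi.comm]
    rcases h.translation with ⟨h1, h2⟩ | ⟨a, b, x2, y2, h0, h1, h2, h3, h4⟩
    · left
      constructor
      · change σ' (i T.x) = algebraMap Ω B (algebraMap O Ω F.e) ^ 2 * i T.x
        rw [hσ', h1, map_mul, e2]
      · change σ' (i T.y) = algebraMap Ω B (algebraMap O Ω F.e) ^ 3 * i T.y
        rw [hσ', h2, map_mul, e2]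
    · right
      refine ⟨csm Ω i (algebraMap L E) a, csm Ω i (algebraMap L E) b, i x2, i y2, ?_, ?_, ?_, ?_, ?_⟩
      · change csm Ω i (algebraMap L E) b ^ 2 = csm Ω i (algebraMap L E) a ^ 3 +
          MvPolynomial.aeval ![1, csm Ω i (algebraMap L E) T.t]
            (MvPolynomial.map (algebraMap O Ω) V.A) * csm Ω i (algebraMap L E) a +
          MvPolynomial.aeval ![1, csm Ω i (algebraMap L E) T.t]
            (MvPolynomial.map (algebraMap O Ω) V.B)
        rw [aeval_bc V.A (csm Ω i (algebraMap L E)) hj.comm,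
          aeval_bc V.B (csm Ω i (algebraMap L E)) hj.comm, ← map_pow, h0]
        simp only [map_add, map_mul, map_pow]
      · change i x2 = ((i T.y - i (algebraMap L E b)) / (i T.x - i (algebraMap L E a))) ^ 2 -
          i T.x - i (algebraMap L E a)
        rw [h1]
        simp only [map_sub, map_pow, map_div₀]
      · change i y2 = (i T.y - i (algebraMap L E b)) / (i T.x - i (algebraMap L E a)) *
          (i T.x - i x2) - i T.y
        rw [h2]
        simp only [map_sub, map_mul, map_div₀]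
      · change σ' (i T.x) = algebraMap Ω B (algebraMap O Ω F.e) ^ 2 * i x2
        rw [hσ', h3, map_mul, e2]
      · change σ' (i T.y) = algebraMap Ω B (algebraMap O Ω F.e) ^ 3 * i y2
        rw [hσ', h4, map_mul, e2]

/-- Voisin's property for the nontrivial characters of an automorphism of a genus one fibration,
after every extension of the field of constants, on every projective model on which the automorphism
acts by a linear map, given the property for the Weierstrass models. -/
theorem voisinChi_constV [IsAlgClosed O] [Good O] {m : ℕ} (hm : m ≠ 0)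
    (hΔ : 4 * V.A ^ 3 + 27 * V.B ^ 2 ≠ 0) (hV : Minimal V) (T : Torsor V L E) (F : Aut V)
    (f : M →ₐ[O] E) (hf : ∀ z, ∀ σ ∈ T.G, σ (f z) = f z)
    {σ₀ : E ≃ₐ[O] E} (hσ₀ : Acts T F σ₀) (s : M ≃ₐ[O] M)
    (hs : ∀ z, f (s z) = σ₀ (f z)) (hsm : s ^ m = 1) (Ω : Type) [Field Ω] [Algebra O Ω]
    [IsAlgClosed Ω] [Good Ω] :
    ∃ (G : Type) (_ : Field G) (_ : Algebra Ω G) (i : M →+* G) (σ : G ≃ₐ[Ω] G),
      IsConst O Ω M G i ∧ (∀ z, σ (i z) = i (s z)) ∧
      ∀ (N : ℕ) (ξ : Fin N → G), ξ ≠ 0 → ∀ g : Matrix (Fin N) (Fin N) Ω,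
        (∀ l, σ (ξ l) = mulV g ξ l) →
        ∀ t : (proj Ω (van Ω ξ)).Pt → (proj Ω (van Ω ξ)).Pt,
          (∀ x, ∃ c : Ω, ∀ l, mulV g x.1.rep l = c * (t x).1.rep l) →
          ∀ (n : ℕ) (χ : ℂ), χ ≠ 1 →
            VoisinChi (bcW V Ω).surface (aut (F.bc Ω)) χ n →
            VoisinChi (proj Ω (van Ω ξ)) t χ n := by
  obtain ⟨B, _, _, i, hi, hlift⟩ := exists_const O Ω E
  obtain ⟨σ', hσ'⟩ := hlift σ₀
  obtain ⟨σF, hσF⟩ := exists_restrict i (f : M →+* E) (s : M ≃+* M) (σ₀ : E →+* E) hs σ' hσ'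
  refine ⟨cs Ω i (f : M →+* E), inferInstance, inferInstance, csm Ω i (f : M →+* E), σF,
    hi.sub f, fun z => ?_, ?_⟩
  · apply Subtype.ext
    rw [hσF]
    change σ' (i (f z)) = i (f (s z))
    rw [hσ', hs]
  intro N ξ hξ g hg t ht n χ hχ hJ
  -- the group acts trivially on the field of the surface
  have hfix : ∀ σ ∈ (tors T hi hlift).G, ∀ z : cs Ω i (f : M →+* E), σ (z : B) = z := by
    rintro τ' ⟨τ, hτ, h⟩ ⟨z, hz⟩
    change τ' z = z
    change z ∈ adjoin Ω (Set.range (i.comp (f : M →+* E))) at hz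
    induction hz using adjoin_induction with
    | mem x hx =>
      obtain ⟨x, rfl⟩ := hx
      change τ' (i (f x)) = i (f x)
      rw [h, hf x τ hτ]
    | algebraMap c => rw [AlgEquiv.commutes]
    | add x y _ _ hx hy => rw [map_add, hx, hy]
    | inv x _ hx => rw [map_inv₀, hx]
    | mul x y _ _ hx hy => rw [map_mul, hx, hy]
  have hξ' : (fun l => (ξ l : B)) ≠ 0 := by
    intro h0
    apply hξ
    funext l
    apply Subtype.ext
    exact congrFun h0 l
  have hlin : ∀ l, σ' (ξ l : B) = mulV g (fun l => (ξ l : B)) l := by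
    intro l
    have h1 := congrArg (fun z : cs Ω i (f : M →+* E) => (z : B)) (hg l)
    have h2 := congrFun (mulV_map g ξ (cs Ω i (f : M →+* E)).val) l
    rw [← hσF]
    exact h1.trans h2
  -- the power of the lift acts trivially
  have hpow : mulV (g ^ m) (fun l => (ξ l : B)) = fun l => (ξ l : B) := by
    funext l
    rw [← iterate_mulV hlin m l]
    have h1 : ∀ (j : ℕ) (z : M), (σ' ^ j) (i (f z)) = i (f ((s ^ j) z)) := by
      intro j
      induction j with
      | zero => intro z; rfl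
      | succ j ih =>
        intro z
        rw [pow_succ, pow_succ]
        change (σ' ^ j) (σ' (i (f z))) = i (f ((s ^ j) (s z)))
        rw [hσ', ← ih, hs]
    have h2 : ∀ z ∈ cs Ω i (f : M →+* E), (σ' ^ m) z = z := by
      intro z hz
      change z ∈ adjoin Ω (Set.range (i.comp (f : M →+* E))) at hz
      induction hz using adjoin_induction with
      | mem x hx =>
        obtain ⟨x, rfl⟩ := hx
        change (σ' ^ m) (i (f x)) = i (f x)
        rw [h1, hsm]
        rfl
      | algebraMap c => rw [AlgEquiv.commutes]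
      | add x y _ _ hx hy => rw [map_add, hx, hy]
      | inv x _ hx => rw [map_inv₀, hx]
      | mul x y _ _ hx hy => rw [map_mul, hx, hy]
    exact h2 _ (ξ l).2
  have hl : Lin g (van Ω fun l => (ξ l : B)) :=
    lin_van (σ := (σ' : B →ₐ[Ω] B)) hlin hm hpow
  have key := voisinChi_torsorV (disc_bc hΔ) (minimal_bc hΔ hV) (tors T hi hlift) (F.bc Ω)
    (fun l => (ξ l : B)) hξ' (fun σ hσ l => hfix σ hσ (ξ l)) (hσ₀.bc hi hlift hσ') hlin hl hχ hJ
  have key2 : ∀ I : Set (MvPolynomial (Fin N) Ω), I = van Ω (fun l => (ξ l : B)) →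
      ∀ t : (proj Ω I).Pt → (proj Ω I).Pt,
        (∀ x, ∃ c : Ω, ∀ l, mulV g x.1.rep l = c * (t x).1.rep l) →
        VoisinChi (proj Ω I) t χ n := by
    rintro _ rfl t ht
    have e : t = linPt hl := by
      funext x
      exact (linPt_unique hl (ht x)).symm
    rw [e]
    exact key
  exact key2 _ (van_val ξ) t ht

end

end CX.CHV
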