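import Mathlib
import Pool.Agent.Helper40.CX.CHB.Gal
import Pool.Agent.Helper40.CX.CHV.Const

/-!
# Base change of torsors, and change of the Weierstrass equation
-/

set_option autoImplicit false
set_option linter.unusedSectionVars false

namespace CX.CHV

open IntermediateField CX.CHI CX.VC CX.VF CX.Pool.Agent.Helper21.TO
open CX.Pool.Agent.Helper51.EW (Wei)

universe u

variable {O L E : Type u} [Field O] [Field L] [Field E] [Algebra O L] [Algebra O E] [Algebra L E]
  [IsScalarTower O L E] {W V : Wei O}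

/-- The stabiliser of `w`. -/
def stab (G : Subgroup (E ≃ₐ[O] E)) (w : E) : Subgroup (E ≃ₐ[O] E) where
  carrier := {σ | σ ∈ G ∧ σ w = w}
  mul_mem' := by
    rintro a b ⟨ha, ha'⟩ ⟨hb, hb'⟩
    refine ⟨mul_mem ha hb, ?_⟩
    change a (b w) = w
    rw [hb', ha']
  one_mem' := ⟨one_mem _, rfl⟩
  inv_mem' := by
    rintro a ⟨ha, ha'⟩
    refine ⟨inv_mem ha, ?_⟩
    change a.symm w = w
    rw [AlgEquiv.symm_apply_eq]
    exact ha'.symm

/-- The data of the change of the equation: the line with the coordinate `w` over the line with the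
coordinate `t`, and `V.A (1, w) = h ^ 4 W.A (1, t)`, `V.B (1, w) = h ^ 6 W.B (1, t)`. -/
structure Chg (W V : Wei O) (t w h : L) : Prop where
  mem : t ∈ adjoin O {w}
  hmem : h ∈ adjoin O {w}
  ne : h ≠ 0
  A : MvPolynomial.aeval ![1, w] V.A = h ^ 4 * MvPolynomial.aeval ![1, t] W.A
  B : MvPolynomial.aeval ![1, w] V.B = h ^ 6 * MvPolynomial.aeval ![1, t] W.B

theorem scale_add {x y e f h X2 Y2 : E} (hh : h ≠ 0)
    (h1 : X2 = ((y - f) / (x - e)) ^ 2 - x - e)
    (h2 : Y2 = (y - f) / (x - e) * (x - X2) - y) :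
    h ^ 2 * X2 = ((h ^ 3 * y - h ^ 3 * f) / (h ^ 2 * x - h ^ 2 * e)) ^ 2 - h ^ 2 * x - h ^ 2 * e ∧
    h ^ 3 * Y2 = (h ^ 3 * y - h ^ 3 * f) / (h ^ 2 * x - h ^ 2 * e) * (h ^ 2 * x - h ^ 2 * X2) -
      h ^ 3 * y := by
  have e1 : (h ^ 3 * y - h ^ 3 * f) / (h ^ 2 * x - h ^ 2 * e) = h * ((y - f) / (x - e)) := by
    rw [← mul_sub, ← mul_sub, pow_succ, mul_assoc, mul_div_mul_left _ _ (pow_ne_zero 2 hh),
      mul_div_assoc]
  rw [e1]
  constructor
  · rw [h1]; ring
  · rw [h2]; ring

theorem transcendental_of_mem {t w : L} (h : t ∈ adjoin O {w}) (ht : Transcendental O t) :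
    Transcendental O w := by
  intro hw
  apply ht
  have h1 : Algebra.IsAlgebraic O (adjoin O {w}) := by
    have := adjoin.finiteDimensional (x := w) (K := O) hw.isIntegral
    exact Algebra.IsAlgebraic.of_finite O _
  exact (isAlgebraic_algebraMap_iff (algebraMap (adjoin O {w}) L).injective).mpr
    (h1.isAlgebraic (⟨t, h⟩ : adjoin O {w}))

theorem fix_of_mem {σ : E ≃ₐ[O] E} {w z : L} (hz : z ∈ adjoin O {w})
    (hw : σ (algebraMap L E w) = algebraMap L E w) : σ (algebraMap L E z) = algebraMap L E z := by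
  induction hz using adjoin_induction with
  | mem z hz =>
    rw [Set.mem_singleton_iff] at hz
    rw [hz, hw]
  | algebraMap c => rw [← IsScalarTower.algebraMap_apply, AlgEquiv.commutes]
  | add a b _ _ ha hb => rw [map_add, map_add, ha, hb]
  | inv a _ ha => rw [map_inv₀, map_inv₀, ha]
  | mul a b _ _ ha hb => rw [map_mul, map_mul, ha, hb]

/-- The torsor over the line with the coordinate `w`. -/
noncomputable def toV (T : Torsor W L E) {w h : L} (C : Chg W V T.t w h) : Torsor V L E where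
  hL := T.hL
  t := w
  ht := transcendental_of_mem C.mem T.ht
  x := algebraMap L E h ^ 2 * T.x
  y := algebraMap L E h ^ 3 * T.y
  hx := by
    intro h0
    apply T.hx
    have hh : algebraMap L E h ^ 2 ≠ 0 := pow_ne_zero _ ((_root_.map_ne_zero _).mpr C.ne)
    have h1 : IsAlgebraic L (algebraMap L E (h ^ 2)⁻¹ * (algebraMap L E h ^ 2 * T.x)) :=
      (isAlgebraic_algebraMap _).mul h0
    rwa [map_inv₀, map_pow, inv_mul_cancel_left₀ hh] at h1
  eqn := by
    rw [C.A, C.B, map_mul, map_mul, map_pow, map_pow]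
    linear_combination algebraMap L E h ^ 6 * T.eqn
  gen := by
    rw [eq_top_iff, ← T.gen, adjoin_le_iff]
    have hh : algebraMap L E h ≠ 0 := (_root_.map_ne_zero _).mpr C.ne
    rintro z (rfl | hz)
    · have h1 : algebraMap L E (h ^ 2)⁻¹ * (algebraMap L E h ^ 2 * T.x) ∈
          adjoin L {algebraMap L E h ^ 2 * T.x, algebraMap L E h ^ 3 * T.y} :=
        mul_mem (IntermediateField.algebraMap_mem _ _)
          (subset_adjoin _ _ (Set.mem_insert _ _))
      rwa [map_inv₀, map_pow, inv_mul_cancel_left₀ (pow_ne_zero 2 hh)] at h1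
    · rw [Set.mem_singleton_iff] at hz
      subst hz
      have h1 : algebraMap L E (h ^ 3)⁻¹ * (algebraMap L E h ^ 3 * T.y) ∈
          adjoin L {algebraMap L E h ^ 2 * T.x, algebraMap L E h ^ 3 * T.y} :=
        mul_mem (IntermediateField.algebraMap_mem _ _)
          (subset_adjoin _ _ (Set.mem_insert_of_mem _ rfl))
      rwa [map_inv₀, map_pow, inv_mul_cancel_left₀ (pow_ne_zero 3 hh)] at h1
  G := stab T.G (algebraMap L E w)
  finG := by
    have := T.finG
    exact Finite.of_injective (fun τ : stab T.G (algebraMap L E w) => (⟨τ.1, τ.2.1⟩ : T.G))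
      (fun a b h => Subtype.ext (congrArg (fun x : T.G => x.1) h))
  stable := fun σ hσ => T.stable σ hσ.1
  fixt := fun σ hσ => hσ.2
  fixed := by
    intro z hz
    obtain ⟨H, hfin, hH1, hH2⟩ := exists_res_subgroup T.G T.finG T.stable
    have hinj : Function.Injective (algebraMap L E) := (algebraMap L E).injective
    refine CHB.mem_adjoin_of_stab H hfin (t := T.t) (fun z hz => ?_) C.mem (fun τ hτ hτw => ?_)
    · apply T.fixed
      intro σ hσ
      obtain ⟨τ, hτ, h⟩ := hH2 σ hσ
      rw [h, hz τ hτ]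
    · obtain ⟨σ, hσ, h1⟩ := hH1 τ hτ
      apply hinj
      rw [← h1]
      exact hz σ ⟨hσ, by rw [h1, hτw]⟩
  translation := by
    rintro σ ⟨hσ, hσw⟩
    have hh : algebraMap L E h ≠ 0 := (_root_.map_ne_zero _).mpr C.ne
    have hσh : σ (algebraMap L E h) = algebraMap L E h := fix_of_mem C.hmem hσw
    rcases T.translation σ hσ with ⟨h1, h2⟩ | ⟨e, f, h0, h1, h2⟩
    · left
      constructor
      · rw [map_mul, map_pow, hσh, h1]
      · rw [map_mul, map_pow, hσh, h2]
    · right
      obtain ⟨e1, e2⟩ := scale_add hh h1 h2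
      refine ⟨h ^ 2 * e, h ^ 3 * f, ?_, ?_, ?_⟩
      · rw [C.A, C.B]
        linear_combination h ^ 6 * h0
      · rw [map_mul σ, map_pow, hσh, e1]
        simp only [map_mul, map_pow]
      · rw [map_mul σ, map_pow, hσh, e2, map_mul σ, map_pow, hσh]
        simp only [map_mul, map_pow]
  r := fun i => h ^ 2 * T.r i
  hr := by
    have h1 := congrArg (fun P : Polynomial L => Polynomial.C (h ^ 6) *
      P.comp (Polynomial.C (h ^ 2)⁻¹ * Polynomial.X)) T.hr
    have hc : Polynomial.C (h ^ 2) * Polynomial.C (h ^ 2)⁻¹ = (1 : Polynomial L) := by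
      rw [← Polynomial.C_mul, mul_inv_cancel₀ (pow_ne_zero 2 C.ne), Polynomial.C_1]
    have e1 : Polynomial.C (h ^ 6) *
        (Polynomial.X ^ 3 + Polynomial.C (MvPolynomial.aeval ![1, T.t] W.A) * Polynomial.X +
          Polynomial.C (MvPolynomial.aeval ![1, T.t] W.B)).comp
            (Polynomial.C (h ^ 2)⁻¹ * Polynomial.X) =
        Polynomial.X ^ 3 + Polynomial.C (MvPolynomial.aeval ![1, w] V.A) * Polynomial.X +
          Polynomial.C (MvPolynomial.aeval ![1, w] V.B) := by
      rw [C.A, C.B]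
      simp only [Polynomial.add_comp, Polynomial.mul_comp, Polynomial.pow_comp, Polynomial.X_comp,
        Polynomial.C_comp, Polynomial.C_mul]
      have e6 : (Polynomial.C (h ^ 6) : Polynomial L) = Polynomial.C (h ^ 2) ^ 3 := by
        rw [← Polynomial.C_pow]; congr 1; ring
      have e4 : (Polynomial.C (h ^ 4) : Polynomial L) = Polynomial.C (h ^ 2) ^ 2 := by
        rw [← Polynomial.C_pow]; congr 1; ring
      rw [e6, e4]
      generalize hu : (Polynomial.C (h ^ 2) : Polynomial L) = u at hc ⊢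
      generalize hv : (Polynomial.C (h ^ 2)⁻¹ : Polynomial L) = v at hc ⊢
      generalize Polynomial.C (MvPolynomial.aeval ![1, T.t] W.A) = a
      generalize Polynomial.C (MvPolynomial.aeval ![1, T.t] W.B) = b
      have h2 : u ^ 3 * ((v * Polynomial.X) ^ 3 + a * (v * Polynomial.X) + b) =
          (u * v) ^ 3 * Polynomial.X ^ 3 + u ^ 2 * (u * v) * a * Polynomial.X + u ^ 3 * b := by ring
      rw [h2, hc]
      ring
    have e2 : Polynomial.C (h ^ 6) * (∏ i, (Polynomial.X - Polynomial.C (T.r i))).comp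
        (Polynomial.C (h ^ 2)⁻¹ * Polynomial.X) =
        ∏ i, (Polynomial.X - Polynomial.C (h ^ 2 * T.r i)) := by
      rw [Fin.prod_univ_three, Fin.prod_univ_three]
      simp only [Polynomial.mul_comp, Polynomial.sub_comp, Polynomial.X_comp,
        Polynomial.C_comp, Polynomial.C_mul]
      have e6 : (Polynomial.C (h ^ 6) : Polynomial L) = Polynomial.C (h ^ 2) ^ 3 := by
        rw [← Polynomial.C_pow]; congr 1; ring
      rw [e6]
      generalize hu : (Polynomial.C (h ^ 2) : Polynomial L) = u at hc ⊢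
      generalize hv : (Polynomial.C (h ^ 2)⁻¹ : Polynomial L) = v at hc ⊢
      have h3 : ∀ z : Polynomial L, u * (v * Polynomial.X - z) = Polynomial.X - u * z := by
        intro z
        rw [mul_sub, ← mul_assoc, hc, one_mul]
      rw [← h3, ← h3, ← h3]
      ring
    exact e1.symm.trans (h1.trans e2)
  s := fun i => h * T.s i
  hs := by
    intro i
    rw [mul_pow, T.hs]
    ring

/-- The action of an element of the group of the torsor over the `t`-line. -/
theorem acts_toV (T : Torsor W L E) {w h : L} (C : Chg W V T.t w h) (F : Aut V)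
    {σ₀ : E ≃ₐ[O] E} (hσ₀ : σ₀ ∈ T.G)
    (hw : σ₀ (algebraMap L E w) = algebraMap O E F.d * algebraMap L E w + algebraMap O E F.c)
    (hh : σ₀ (algebraMap L E h) = algebraMap O E F.e * algebraMap L E h) :
    Acts (toV T C) F σ₀ where
  stable := by
    obtain ⟨H, hfin, hH1, hH2⟩ := exists_res_subgroup T.G T.finG T.stable
    obtain ⟨τ, -, h⟩ := hH2 σ₀ hσ₀
    exact ⟨τ, h⟩
  coord := hw
  translation := by
    have hh0 : algebraMap L E h ≠ 0 := (_root_.map_ne_zero _).mpr C.ne
    rcases T.translation σ₀ hσ₀ with ⟨h1, h2⟩ | ⟨e, f, h0, h1, h2⟩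
    · left
      constructor
      · change σ₀ (algebraMap L E h ^ 2 * T.x) = _ * (algebraMap L E h ^ 2 * T.x)
        rw [map_mul, map_pow, hh, h1]; ring
      · change σ₀ (algebraMap L E h ^ 3 * T.y) = _ * (algebraMap L E h ^ 3 * T.y)
        rw [map_mul, map_pow, hh, h2]; ring
    · right
      obtain ⟨e1, e2⟩ := scale_add hh0 h1 h2
      refine ⟨h ^ 2 * e, h ^ 3 * f, algebraMap L E h ^ 2 * σ₀ T.x, algebraMap L E h ^ 3 * σ₀ T.y,
        ?_, ?_, ?_, ?_, ?_⟩
      · change (h ^ 3 * f) ^ 2 = (h ^ 2 * e) ^ 3 + MvPolynomial.aeval ![1, w] V.A * (h ^ 2 * e) +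
          MvPolynomial.aeval ![1, w] V.B
        rw [C.A, C.B]
        linear_combination h ^ 6 * h0
      · rw [e1]
        simp only [map_mul, map_pow]
        rfl
      · rw [e2]
        simp only [map_mul, map_pow]
        rfl
      · change σ₀ (algebraMap L E h ^ 2 * T.x) = _
        rw [map_mul, map_pow, hh]; ring
      · change σ₀ (algebraMap L E h ^ 3 * T.y) = _
        rw [map_mul, map_pow, hh]; ring

end CX.CHV
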