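import Mathlib
import Pool.Agent.Helper40.CX.CHV.Chg

/-!
# Voisin's property for the characters of a cyclic base change, any Weierstrass equation of the base
change
-/

set_option autoImplicit false
set_option linter.unusedSectionVars false

namespace CX.CHV

open IntermediateField CX.CHI CX.VC CX.Pool.Agent.Helper21.TO CX.BC
open CX.Pool.Agent.Helper51.EW (Wei)

variable {O L E M : Type} [Field O] [Field L] [Field E] [Field M]
  [Algebra O L] [Algebra O E] [Algebra L E] [IsScalarTower O L E] [Algebra O M] {W V : Wei O}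

/-- The order of the automorphism of `M`. -/
theorem pow_eq_one_of (T : Torsor W L E) {w : L} (f : M →ₐ[O] E)
    (hf : ∀ z, ∀ σ ∈ T.G, σ (algebraMap L E w) = algebraMap L E w → σ (f z) = f z)
    {σ₀ : E ≃ₐ[O] E} (hσ₀ : σ₀ ∈ T.G) (s : M ≃ₐ[O] M) (hs : ∀ z, f (s z) = σ₀ (f z)) {m : ℕ}
    (hw : (σ₀ ^ m) (algebraMap L E w) = algebraMap L E w) : s ^ m = 1 := by
  have h1 : ∀ (j : ℕ) (z : M), f ((s ^ j) z) = (σ₀ ^ j) (f z) := by
    intro j
    induction j with
    | zero => intro z; rfl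
    | succ j ih =>
      intro z
      rw [pow_succ, pow_succ]
      change f ((s ^ j) (s z)) = (σ₀ ^ j) (σ₀ (f z))
      rw [ih, hs]
  apply AlgEquiv.ext
  intro z
  apply f.toRingHom.injective
  change f ((s ^ m) z) = f z
  rw [h1]
  exact hf z _ (pow_mem hσ₀ m) hw

/-- Voisin's property for the nontrivial characters of the base change `M = R (w)` of a genus one
fibration, after every extension of the field of constants, on every projective model on which the
group acts by linear maps, given the property for a minimal Weierstrass equation of the base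
change. -/
theorem voisinChi_base [IsAlgClosed O] [Good O] {m : ℕ} (hm : m ≠ 0)
    (hΔ : 4 * V.A ^ 3 + 27 * V.B ^ 2 ≠ 0) (hV : Minimal V) (T : Torsor W L E) {w h : L}
    (C : Chg W V T.t w h) (F : Aut V) (f : M →ₐ[O] E)
    (hf : ∀ z, ∀ σ ∈ T.G, σ (algebraMap L E w) = algebraMap L E w → σ (f z) = f z)
    {σ₀ : E ≃ₐ[O] E} (hσ₀ : σ₀ ∈ T.G)
    (hw : σ₀ (algebraMap L E w) = algebraMap O E F.d * algebraMap L E w + algebraMap O E F.c)
    (hh : σ₀ (algebraMap L E h) = algebraMap O E F.e * algebraMap L E h) (s : M ≃ₐ[O] M)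
    (hs : ∀ z, f (s z) = σ₀ (f z)) (hsm : s ^ m = 1) (Ω : Type) [Field Ω] [Algebra O Ω]
    [IsAlgClosed Ω] [Good Ω] :
    ∃ (G : Type) (_ : Field G) (_ : Algebra Ω G) (i : M →+* G) (σ : G ≃ₐ[Ω] G),
      IsConst O Ω M G i ∧ (∀ z, σ (i z) = i (s z)) ∧
      ∀ (N : ℕ) (ξ : Fin N → G), ξ ≠ 0 → ∀ g : Matrix (Fin N) (Fin N) Ω,
        (∀ l, σ (ξ l) = mulV g ξ l) →
        ∀ t : (proj Ω (van Ω ξ)).Pt → (proj Ω (van Ω ξ)).Pt,
          (∀ x, ∃ c : Ω, ∀ l, mulV g x.1.rep l = c * (t x).1.rep l) →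
          ∀ (n : ℕ) (χ : ℂ), χ ≠ 1 →
            VoisinChi (bcW V Ω).surface (aut (F.bc Ω)) χ n →
            VoisinChi (proj Ω (van Ω ξ)) t χ n :=
  voisinChi_constV hm hΔ hV (toV T C) F f (fun z σ hσ => hf z σ hσ.1 hσ.2)
    (acts_toV T C F hσ₀ hw hh) s hs hsm Ω

end CX.CHV
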