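import Mathlib
import Pool.Agent.Helper40.CX.CHV.Base
import Pool.Agent.Helper98.CHC.Def

/-!
# Additive base changes: `u = w ^ p - w`
-/

set_option autoImplicit false
set_option linter.unusedSectionVars false

namespace CX.CHV

open IntermediateField CX.CHI CX.VC CX.Pool.Agent.Helper21.TO CX.BC
open CX.CHC (IsAS TrInv rotV rotVC rotV_mk trw form_ext)
open CX.Pool.Agent.Helper51.EW (Wei Coord WPt)

universe u

section

variable {k : Type u} [Field k] {V : Wei k} {K : Type u} [Field K] [Algebra k K]

theorem bind_affF_one (P : MvPolynomial (Fin 2) k) : MvPolynomial.bind₁ (affF 1 1) P =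
    MvPolynomial.bind₁ (![MvPolynomial.X 0, MvPolynomial.X 1 + MvPolynomial.X 0] :
      Fin 2 → MvPolynomial (Fin 2) k) P := by
  congr 2
  funext i
  fin_cases i
  · rfl
  · change MvPolynomial.C 1 * MvPolynomial.X 1 + MvPolynomial.C 1 * MvPolynomial.X 0 =
      (MvPolynomial.X 1 + MvPolynomial.X 0 : MvPolynomial (Fin 2) k)
    rw [MvPolynomial.C_1, one_mul, one_mul]

/-- The translation. -/
noncomputable def autAS (h : TrInv V) : Aut V where
  d := 1
  c := 1
  e := 1
  hd := one_ne_zero
  he := one_ne_zero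
  hA := by rw [bind_affF_one, h.A, one_pow, MvPolynomial.C_1, one_mul]
  hB := by rw [bind_affF_one, h.B, one_pow, MvPolynomial.C_1, one_mul]

theorem aut_eq_rotV (F : Aut V) (hd : F.d = 1) (hc : F.c = 1) (he : F.e = 1) (h : TrInv V)
    (q : WPt V K) : aut F q = rotV h q := by
  obtain ⟨a, rfl⟩ := CX.Pool.Agent.Helper51.EW.exists_mk q
  rw [aut_mk, rotV_mk, CX.Pool.Agent.Helper51.EW.mk_eq_iff]
  refine ⟨1, 1, one_ne_zero, one_ne_zero, fun i => ?_, fun i => ?_⟩
  · fin_cases i
    · change a.u 0 = 1 * a.u 0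
      rw [one_mul]
    · change a.u 1 + a.u 0 = 1 * (algebraMap k K F.d * a.u 1 + algebraMap k K F.c * a.u 0)
      rw [hd, hc, map_one, one_mul, one_mul, one_mul]
  · rw [one_pow, one_mul, one_mul]
    fin_cases i
    · change a.w 0 = algebraMap k K F.e ^ 2 * a.w 0
      rw [he, map_one, one_pow, one_mul]
    · change a.w 1 = algebraMap k K F.e ^ 3 * a.w 1
      rw [he, map_one, one_pow, one_mul]
    · rfl

end

/-- Extension of the constants and dehomogenisation. -/
theorem aeval_map_poly {O Ω : Type} [Field O] [Field Ω] [Algebra O Ω] (f : Polynomial O)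
    (P : MvPolynomial (Fin 2) O) :
    MvPolynomial.aeval (![1, f.map (algebraMap O Ω)] : Fin 2 → Polynomial Ω)
      (MvPolynomial.map (algebraMap O Ω) P) =
      (MvPolynomial.aeval (![1, f] : Fin 2 → Polynomial O) P).map (algebraMap O Ω) := by
  induction P using MvPolynomial.induction_on with
  | C a =>
    rw [MvPolynomial.map_C, MvPolynomial.algHom_C, MvPolynomial.algHom_C]
    exact (Polynomial.map_C _).symm
  | add p q hp hq => rw [map_add, map_add, map_add, Polynomial.map_add, hp, hq]
  | mul_X p i hp =>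
    rw [map_mul, map_mul, map_mul, Polynomial.map_mul, hp, MvPolynomial.map_X,
      MvPolynomial.aeval_X, MvPolynomial.aeval_X]
    congr 1
    fin_cases i
    · exact Polynomial.map_one _ |>.symm
    · rfl

section

variable {O : Type} [Field O] {W V : Wei O} {p : ℕ}

theorem isAS_bc (h : IsAS W V p) (Ω : Type) [Field Ω] [Algebra O Ω] :
    IsAS (bcW W Ω) (bcW V Ω) p := by
  have h1 : ∀ P : MvPolynomial (Fin 2) O,
      MvPolynomial.aeval (![1, Polynomial.X] : Fin 2 → Polynomial Ω)
        (MvPolynomial.map (algebraMap O Ω) P) =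
        (MvPolynomial.aeval (![1, Polynomial.X] : Fin 2 → Polynomial O) P).map
          (algebraMap O Ω) := by
    intro P
    have := aeval_map_poly (Ω := Ω) (Polynomial.X : Polynomial O) P
    rwa [Polynomial.map_X] at this
  have h2 : ∀ P : MvPolynomial (Fin 2) O,
      MvPolynomial.aeval (![1, Polynomial.X ^ p - Polynomial.X] : Fin 2 → Polynomial Ω)
        (MvPolynomial.map (algebraMap O Ω) P) =
        (MvPolynomial.aeval (![1, Polynomial.X ^ p - Polynomial.X] : Fin 2 → Polynomial O) P).map
          (algebraMap O Ω) := by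
    intro P
    have := aeval_map_poly (Ω := Ω) (Polynomial.X ^ p - Polynomial.X : Polynomial O) P
    rwa [Polynomial.map_sub, Polynomial.map_pow, Polynomial.map_X] at this
  exact ⟨(h1 V.A).trans ((congrArg _ h.A).trans (h2 W.A).symm),
    (h1 V.B).trans ((congrArg _ h.B).trans (h2 W.B).symm)⟩

theorem disc_as [IsAlgClosed O] (hp : 1 < p) (h : IsAS W V p)
    (hΔ : 4 * W.A ^ 3 + 27 * W.B ^ 2 ≠ 0) : 4 * V.A ^ 3 + 27 * V.B ^ 2 ≠ 0 := by
  intro h0
  apply hΔ
  have : Infinite O := IsAlgClosed.instInfinite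
  have hA : (W.A ^ 3).IsHomogeneous (12 * W.N) := by
    have := W.hA.pow 3
    rwa [show 4 * W.N * 3 = 12 * W.N by ring] at this
  have hB : (W.B ^ 2).IsHomogeneous (12 * W.N) := by
    have := W.hB.pow 2
    rwa [show 6 * W.N * 2 = 12 * W.N by ring] at this
  have hom : (4 * W.A ^ 3 + 27 * W.B ^ 2).IsHomogeneous (12 * W.N) := by
    have h4 : (4 : MvPolynomial (Fin 2) O) = MvPolynomial.C 4 := (map_ofNat _ _).symm
    have h27 : (27 : MvPolynomial (Fin 2) O) = MvPolynomial.C 27 := (map_ofNat _ _).symm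
    rw [h4, h27]
    have e1 := (MvPolynomial.isHomogeneous_C (Fin 2) (4 : O)).mul hA
    have e2 := (MvPolynomial.isHomogeneous_C (Fin 2) (27 : O)).mul hB
    rw [zero_add] at e1 e2
    exact e1.add e2
  refine form_ext hom (MvPolynomial.isHomogeneous_zero _ _ _) fun T => ?_
  rw [map_zero]
  obtain ⟨z, hz⟩ := IsAlgClosed.exists_root
    (Polynomial.X ^ p - Polynomial.X - Polynomial.C T : Polynomial O) (by
      have hd : (Polynomial.X ^ p - Polynomial.X - Polynomial.C T : Polynomial O).degree = p := by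
        rw [sub_sub]
        apply Polynomial.degree_sub_eq_left_of_degree_lt ?_ |>.trans (Polynomial.degree_X_pow p)
        rw [Polynomial.degree_X_pow]
        refine (Polynomial.degree_add_le _ _).trans_lt (max_lt ?_ ?_)
        · refine Polynomial.degree_X_le.trans_lt ?_
          exact_mod_cast hp
        · refine Polynomial.degree_C_le.trans_lt ?_
          exact_mod_cast (by omega : 0 < p)
      rw [hd]
      exact_mod_cast (by omega : p ≠ 0))
  have hz' : z ^ p - z = T := by
    have h3 := hz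
    rw [Polynomial.IsRoot.def] at h3
    have h4 : z ^ p - z - T = 0 := by simpa using h3
    linear_combination h4
  have h5 := congrArg (MvPolynomial.aeval ![1, z]) h0
  rw [map_add, map_mul, map_mul, map_pow, map_pow, h.aeval_A, h.aeval_B, hz', map_zero, map_ofNat,
    map_ofNat] at h5
  rw [map_add, map_mul, map_mul, map_pow, map_pow, map_ofNat, map_ofNat]
  exact h5

end

section

variable {O L E M : Type} [Field O] [Field L] [Field E] [Field M]
  [Algebra O L] [Algebra O E] [Algebra L E] [IsScalarTower O L E] [Algebra O M] {W V : Wei O}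
  {p : ℕ}

theorem chg_as (h : IsAS W V p) {t w : L} (hw : w ^ p - w = t) : Chg W V t w 1 where
  mem := by
    rw [← hw]
    exact sub_mem (pow_mem (mem_adjoin_simple_self O w) p) (mem_adjoin_simple_self O w)
  hmem := one_mem _
  ne := one_ne_zero
  A := by rw [one_pow, one_mul, h.aeval_A, hw]
  B := by rw [one_pow, one_mul, h.aeval_B, hw]

/-- Voisin's property for the nontrivial characters of the additive base change `M = R (w)`,
`w ^ p - w = t`, of a genus one fibration, after every extension of the field of constants, on every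
projective model on which the group acts by linear maps, given the property for a minimal
Weierstrass equation of the base change. -/
theorem voisinChi_as [IsAlgClosed O] [Good O] [Fact p.Prime] [CharP O p]
    (hΔ : 4 * W.A ^ 3 + 27 * W.B ^ 2 ≠ 0) (hWV : IsAS W V p) (hV : Minimal V) (T : Torsor W L E)
    {w : L} (hw : w ^ p - w = T.t) (f : M →ₐ[O] E)
    (hf : ∀ z, ∀ σ ∈ T.G, σ (algebraMap L E w) = algebraMap L E w → σ (f z) = f z)
    {σ₀ : E ≃ₐ[O] E} (hσ₀ : σ₀ ∈ T.G)
    (hσw : σ₀ (algebraMap L E w) = algebraMap L E w + 1) (s : M ≃ₐ[O] M)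
    (hs : ∀ z, f (s z) = σ₀ (f z)) (Ω : Type) [Field Ω] [Algebra O Ω] [IsAlgClosed Ω]
    [Good Ω] :
    ∃ (G : Type) (_ : Field G) (_ : Algebra Ω G) (i : M →+* G) (σ : G ≃ₐ[Ω] G),
      IsConst O Ω M G i ∧ (∀ z, σ (i z) = i (s z)) ∧
      ∀ (N : ℕ) (ξ : Fin N → G), ξ ≠ 0 → ∀ g : Matrix (Fin N) (Fin N) Ω,
        (∀ l, σ (ξ l) = mulV g ξ l) →
        ∀ t : (proj Ω (van Ω ξ)).Pt → (proj Ω (van Ω ξ)).Pt,
          (∀ x, ∃ c : Ω, ∀ l, mulV g x.1.rep l = c * (t x).1.rep l) →
          ∀ (n : ℕ) (χ : ℂ), χ ≠ 1 → ∀ h' : TrInv (bcW V Ω),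
            VoisinChi (bcW V Ω).surface (rotV h') χ n →
            VoisinChi (proj Ω (van Ω ξ)) t χ n := by
  have hp : p.Prime := Fact.out
  have : Infinite O := IsAlgClosed.instInfinite
  have hsm : s ^ p = 1 := by
    refine pow_eq_one_of T f hf hσ₀ s hs ?_
    have h1 : ∀ j : ℕ, (σ₀ ^ j) (algebraMap L E w) = algebraMap L E w + (j : E) := by
      intro j
      induction j with
      | zero => rw [pow_zero, Nat.cast_zero, add_zero]; rfl
      | succ j ih =>
        rw [pow_succ']
        change σ₀ ((σ₀ ^ j) _) = _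
        rw [ih, map_add, map_natCast, hσw, Nat.cast_add, Nat.cast_one]
        ring
    have hE : CharP E p := charP_of_injective_algebraMap (algebraMap O E).injective p
    rw [h1, CharP.cast_eq_zero, add_zero]
  obtain ⟨G, _, _, i, σ, hi, hσ, H⟩ := voisinChi_base hp.ne_zero
    (disc_as hp.one_lt hWV hΔ) hV T (chg_as hWV hw) (autAS hWV.trInv) f hf hσ₀
    (by
      change σ₀ (algebraMap L E w) = algebraMap O E 1 * algebraMap L E w + algebraMap O E 1
      rw [hσw, map_one, one_mul])
    (by
      change σ₀ (algebraMap L E 1) = algebraMap O E 1 * algebraMap L E 1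
      rw [map_one, map_one, map_one, one_mul]) s hs hsm Ω
  refine ⟨G, inferInstance, inferInstance, i, σ, hi, hσ, fun N ξ hξ g hg t ht n χ hχ h' hJ => ?_⟩
  refine H N ξ hξ g hg t ht n χ hχ ?_
  have e : (aut ((autAS hWV.trInv).bc Ω) : (bcW V Ω).surface.Pt → (bcW V Ω).surface.Pt) =
      rotV h' := by
    funext q
    exact aut_eq_rotV _ (map_one _) (map_one _) (map_one _) h' q
  rw [e]
  exact hJ

end

end CX.CHV
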