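import Mathlib
import Pool.Agent.Helper40.CX.CHV.Add
import Pool.Agent.Helper40.CX.CHB.Trv
import Pool.Agent.Helper40.CX.CHI.EqnP
import Pool.Agent.Helper98.CHC.Wei
import Pool.Agent.Helper9.CHI.Main
import Pool.Agent.Helper35.EQ.Bc
import Pool.Agent.Helper73.CHA.Model

/-!
# Voisin's property for the characters of the additive base changes of rational elliptic surfaces
-/

set_option autoImplicit false
set_option linter.unusedSectionVars false

namespace CX.CHV

open IntermediateField CX.CHI CX.CHB CX.VC CX.Pool.Agent.Helper21.TO CX.BC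
open CX.CHC (IsAS TrInv rotV voisinChi_wei)
open CX.Pool.Agent.Helper51.EW (Wei)
open _root_.Pool.Agent.Helper9.CHI
open _root_.Pool.Agent.Helper73.CHA (IsModelA)

section

variable {O L E M : Type} [Field O] [Field L] [Field E] [Field M]
  [Algebra O L] [Algebra O E] [Algebra L E] [IsScalarTower O L E] [Algebra O M] {W V : Wei O}
  {p : ℕ}

/-- The function form for all numbers of factors, with one field. -/
theorem voisinChi_as_all [IsAlgClosed O] [Good O] [Fact p.Prime] [CharP O p] (h1 : 1 ≤ W.N)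
    (hj : ∀ c d : O, (c ≠ 0 ∨ d ≠ 0) →
      MvPolynomial.C c * W.A ^ 3 ≠ MvPolynomial.C d * W.B ^ 2)
    (hWV : IsAS W V p) (hV : Minimal V) (T : Torsor W L E)
    {w : L} (hw : w ^ p - w = T.t) (f : M →ₐ[O] E)
    (hf : ∀ z, ∀ σ ∈ T.G, σ (algebraMap L E w) = algebraMap L E w → σ (f z) = f z)
    {σ₀ : E ≃ₐ[O] E} (hσ₀ : σ₀ ∈ T.G)
    (hσw : σ₀ (algebraMap L E w) = algebraMap L E w + 1) (s : M ≃ₐ[O] M)
    (hs : ∀ z, f (s z) = σ₀ (f z)) (Ω : Type) [Field Ω] [Algebra O Ω] [IsAlgClosed Ω]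
    [Good Ω] :
    ∃ (G : Type) (_ : Field G) (_ : Algebra Ω G) (i : M →+* G) (σ : G ≃ₐ[Ω] G),
      IsConst O Ω M G i ∧ (∀ z, σ (i z) = i (s z)) ∧
      ∀ (N : ℕ) (ξ : Fin N → G) (g : Matrix (Fin N) (Fin N) Ω), ξ ≠ 0 →
        (∀ j, σ (ξ j) = ∑ l, algebraMap Ω G (g j l) * ξ l) →
        ∀ r : (proj Ω (van Ω ξ)).Pt → (proj Ω (van Ω ξ)).Pt, IsLin g r →
          ∀ n, W.N + 1 ≤ n → ∀ χ : ℂ, χ ≠ 1 → VoisinChi (proj Ω (van Ω ξ)) r χ n := by
  obtain ⟨G, _, _, i, σ, hi, hσ, H⟩ := voisinChi_as (disc_of_hj hj) hWV hV T hw f hf hσ₀ hσw s hs Ω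
  refine ⟨G, inferInstance, inferInstance, i, σ, hi, hσ, fun N ξ g hξ hg r hr n hn χ hχ => ?_⟩
  have hΩ : CharP Ω p := charP_of_injective_algebraMap (algebraMap O Ω).injective p
  have hinf : Infinite Ω := IsAlgClosed.instInfinite
  have hbc := isAS_bc hWV Ω
  refine H N ξ hξ g hg r (fun x => ?_) n χ hχ hbc.trInv ?_
  · obtain ⟨c, -, hc⟩ := hr x
    exact ⟨c, fun l => (hc l).symm⟩
  · exact voisinChi_wei hbc hbc.trInv h1 hn (_root_.Pool.Agent.Helper35.EQ.hj_bc hj Ω) hχ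

theorem hasVoisinChi_as [IsAlgClosed O] [Good O] [Fact p.Prime] [CharP O p] (hN : W.N = 1)
    (hj : ∀ c d : O, (c ≠ 0 ∨ d ≠ 0) →
      MvPolynomial.C c * W.A ^ 3 ≠ MvPolynomial.C d * W.B ^ 2)
    (hWV : IsAS W V p) (hV : Minimal V) (T : Torsor W L E)
    {w : L} (hw : w ^ p - w = T.t) (f : M →ₐ[O] E)
    (hf : ∀ z, ∀ σ ∈ T.G, σ (algebraMap L E w) = algebraMap L E w → σ (f z) = f z)
    {σ₀ : E ≃ₐ[O] E} (hσ₀ : σ₀ ∈ T.G)
    (hσw : σ₀ (algebraMap L E w) = algebraMap L E w + 1) (s : M ≃ₐ[O] M)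
    (hs : ∀ z, f (s z) = σ₀ (f z)) (hsp : s ^ p = 1) : HasVoisinChi O M s p := by
  have hp : p.Prime := Fact.out
  refine hasVoisinChi_of hsp hp.ne_zero fun Ω _ _ _ _ => ?_
  obtain ⟨G, _, _, i, σ, hi, hσ, H⟩ := voisinChi_as_all hN.ge hj hWV hV T hw f hf hσ₀ hσw s hs Ω
  exact ⟨G, inferInstance, inferInstance, i, σ, hi, hσ, fun N ξ g hξ hg r hr χ _ hχ =>
    H N ξ g hξ hg r hr 2 (by omega) χ hχ⟩

end

section

variable {O M : Type} [Field O] [IsAlgClosed O] [CX.Good O] [Field M] [Algebra O M] {W V : Wei O}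
  {p : ℕ} {x y w : M}

/-- Voisin's property for the characters, for the fields given by an equation. -/
theorem hasVoisinChi_as_eqn [Fact p.Prime] [CharP O p] (hN : W.N = 1)
    (hj : ∀ c d : O, (c ≠ 0 ∨ d ≠ 0) →
      MvPolynomial.C c * W.A ^ 3 ≠ MvPolynomial.C d * W.B ^ 2)
    (hWV : IsAS W V p) (hV : Minimal V) (hxw : AlgebraicIndependent O ![x, w])
    (heq : y ^ 2 = x ^ 3 + MvPolynomial.aeval ![1, w ^ p - w] W.A * x +
      MvPolynomial.aeval ![1, w ^ p - w] W.B)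
    (hgen : adjoin O {x, y, w} = ⊤) (s : M ≃ₐ[O] M)
    (hsx : s x = x) (hsy : s y = y) (hsw : s w = w + 1) :
    HasVoisinChi O M s p := by
  have hp : p.Prime := Fact.out
  have hM : CharP M p := charP_of_injective_algebraMap (algebraMap O M).injective p
  have hae : ∀ (K : Type) [Field K] [Algebra O K] (z : K),
      Polynomial.aeval z (Polynomial.X ^ p - Polynomial.X : Polynomial O) = z ^ p - z := by
    intro K _ _ z
    rw [map_sub, map_pow, Polynomial.aeval_X]
  have hP : Polynomial.derivative (Polynomial.X ^ p - Polynomial.X : Polynomial O) ≠ 0 := by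
    rw [Polynomial.derivative_sub, Polynomial.derivative_X_pow, Polynomial.derivative_X,
      CharP.cast_eq_zero, Polynomial.C_0, zero_mul, zero_sub]
    exact neg_ne_zero.mpr one_ne_zero
  have hu : s (w ^ p - w) = w ^ p - w := by
    rw [map_sub, map_pow, hsw, add_pow_char, one_pow]
    ring
  obtain ⟨L, E, _, _, _, _, _, _, T, w0, f, σ₀, hw, hf, hσ₀, hfw, hs⟩ :=
    triv_dataP (P := Polynomial.X ^ p - Polynomial.X) hP (disc_of_hj hj) hxw
      (by rw [hae]; exact heq) hgen s hsx hsy (by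
        rw [hae, hae, ← hu, map_sub, map_pow])
  rw [hae] at hw
  have hσw : σ₀ (algebraMap L E w0) = algebraMap L E w0 + 1 := by
    rw [← hfw, ← hs, hsw, map_add, map_one]
  have hpow : s ^ p = 1 := by
    refine pow_eq_one_of T f hf hσ₀ s hs ?_
    have h1 : ∀ j : ℕ, (σ₀ ^ j) (algebraMap L E w0) = algebraMap L E w0 + (j : E) := by
      intro j
      induction j with
      | zero => rw [pow_zero, Nat.cast_zero, add_zero]; rfl
      | succ j ih =>
        rw [pow_succ']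
        change σ₀ ((σ₀ ^ j) _) = _
        rw [ih, map_add, map_natCast, hσw, Nat.cast_add, Nat.cast_one]
        ring
    have hE : CharP E p := charP_of_injective_algebraMap (algebraMap O E).injective p
    rw [h1, CharP.cast_eq_zero, add_zero]
  exact hasVoisinChi_as hN hj hWV hV T hw f hf hσ₀ hσw s hs hpow

/-- Voisin's property for the nontrivial characters of the automorphism `w ↦ w + 1` of the field
`O (x, y, w)`, `y ^ 2 = x ^ 3 + A (w ^ p - w) x + B (w ^ p - w)`, where `A` and `B` are polynomials of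
degree at most `4` and `6`, and `A ^ 3` and `B ^ 2` are linearly independent, given a minimal
Weierstrass equation. -/
theorem hasVoisinChi_modelA_of [Fact p.Prime] [CharP O p] {A B : Polynomial O}
    (hA : A.natDegree ≤ 4) (hB : B.natDegree ≤ 6)
    (hj : ∀ c d : O, Polynomial.C c * A ^ 3 = Polynomial.C d * B ^ 2 → c = 0 ∧ d = 0)
    (hmin : (∀ c d : O, (c ≠ 0 ∨ d ≠ 0) → MvPolynomial.C c * (weiP A B).A ^ 3 ≠
      MvPolynomial.C d * (weiP A B).B ^ 2) → ∃ V, IsAS (weiP A B) V p ∧ Minimal V)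
    (h : IsModelA O p A B x y w)
    (s : M ≃ₐ[O] M) (hsx : s x = x) (hsy : s y = y) (hsw : s w = w + 1) :
    HasVoisinChi O M s p := by
  have hj' : ∀ c d : O, (c ≠ 0 ∨ d ≠ 0) →
      MvPolynomial.C c * (weiP A B).A ^ 3 ≠ MvPolynomial.C d * (weiP A B).B ^ 2 := by
    intro c d hcd he
    have h2 := congrArg (MvPolynomial.aeval ![1, (Polynomial.X : Polynomial O)]) he
    change MvPolynomial.aeval ![1, (Polynomial.X : Polynomial O)]
      (MvPolynomial.C c * homg 4 A ^ 3) = MvPolynomial.aeval ![1, (Polynomial.X : Polynomial O)]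
      (MvPolynomial.C d * homg 6 B ^ 2) at h2
    rw [map_mul, map_mul, map_pow, map_pow, aeval_homg_one hA, aeval_homg_one hB,
      MvPolynomial.algHom_C, MvPolynomial.algHom_C, Polynomial.aeval_X_left_apply,
      Polynomial.aeval_X_left_apply] at h2
    obtain ⟨h3, h4⟩ := hj c d h2
    rcases hcd with h5 | h5
    · exact h5 h3
    · exact h5 h4
  obtain ⟨V, hV1, hV2⟩ := hmin hj'
  refine hasVoisinChi_as_eqn (W := weiP A B) rfl hj' hV1 hV2 h.ind ?_ h.gen s hsx hsy hsw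
  change y ^ 2 = x ^ 3 + MvPolynomial.aeval ![1, w ^ p - w] (homg 4 A) * x +
      MvPolynomial.aeval ![1, w ^ p - w] (homg 6 B)
  rw [aeval_homg_one hA, aeval_homg_one hB]
  exact h.eqn

end

end CX.CHV
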