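import Mathlib
import Pool.Agent.Helper40.CX.CHV.Add
import Pool.Agent.Helper98.CHC.Min

/-!
# Multiplicative base changes: `u = w ^ m`, any model
-/

set_option autoImplicit false
set_option linter.unusedSectionVars false

namespace CX.CHV

open IntermediateField CX.CHI CX.VC CX.Pool.Agent.Helper21.TO CX.BC
open CX.CHC (form_ext aeval_poly IsMul)
open CX.Pool.Agent.Helper51.EW (Wei Coord WPt)

universe u

section

variable {k : Type u} [Field k] {W V : Wei k} {m j : ℕ} {K : Type u} [Field K] [Algebra k K]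

theorem isMul_aeval_A (h : IsMul W V m j) (T : K) :
    T ^ (4 * j) * MvPolynomial.aeval (![1, T] : Fin 2 → K) V.A =
      MvPolynomial.aeval (![1, T ^ m] : Fin 2 → K) W.A := by
  have h1 := congrArg (Polynomial.aeval T) h.A
  rw [map_mul, map_pow, aeval_poly, aeval_poly, Polynomial.aeval_X, map_pow,
    Polynomial.aeval_X] at h1
  exact h1

theorem isMul_aeval_B (h : IsMul W V m j) (T : K) :
    T ^ (6 * j) * MvPolynomial.aeval (![1, T] : Fin 2 → K) V.B =
      MvPolynomial.aeval (![1, T ^ m] : Fin 2 → K) W.B := by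
  have h1 := congrArg (Polynomial.aeval T) h.B
  rw [map_mul, map_pow, aeval_poly, aeval_poly, Polynomial.aeval_X, map_pow,
    Polynomial.aeval_X] at h1
  exact h1

theorem affF_hom (d c : k) {n : ℕ} {P : MvPolynomial (Fin 2) k} (hP : P.IsHomogeneous n) :
    (MvPolynomial.bind₁ (affF d c) P).IsHomogeneous n := by
  have h := hP.aeval (affF d c) (n := 1) (by
    intro i
    fin_cases i
    · exact MvPolynomial.isHomogeneous_X k 0
    · change (MvPolynomial.C d * MvPolynomial.X 1 +
        MvPolynomial.C c * MvPolynomial.X 0 : MvPolynomial (Fin 2) k).IsHomogeneous 1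
      have e1 := (MvPolynomial.isHomogeneous_C (Fin 2) d).mul
        (MvPolynomial.isHomogeneous_X k (1 : Fin 2))
      have e2 := (MvPolynomial.isHomogeneous_C (Fin 2) c).mul
        (MvPolynomial.isHomogeneous_X k (0 : Fin 2))
      rw [zero_add] at e1 e2
      exact e1.add e2)
  rwa [one_mul] at h

/-- The dehomogenised forms and the multiplication of the coordinate by a root of unity. -/
theorem comp_of_mul {f F : Polynomial k} {g : k} (hg0 : g ≠ 0) (hg : g ^ m = 1) {r : ℕ}
    (h : Polynomial.X ^ r * f = F.comp (Polynomial.X ^ m)) (T : k) :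
    g ^ r * f.eval (g * T) = f.eval T := by
  have h1 := congrArg (fun P : Polynomial k => P.comp (Polynomial.C g * Polynomial.X)) h
  simp only [Polynomial.mul_comp, Polynomial.pow_comp, Polynomial.X_comp, Polynomial.comp_assoc] at h1
  have h2 : (Polynomial.C g * Polynomial.X : Polynomial k) ^ m = Polynomial.X ^ m := by
    rw [mul_pow, ← Polynomial.C_pow, hg, Polynomial.C_1, one_mul]
  rw [h2, ← h, mul_pow] at h1
  have h3 : Polynomial.X ^ r * (Polynomial.C g ^ r * f.comp (Polynomial.C g * Polynomial.X)) =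
      Polynomial.X ^ r * f := by
    rw [← h1]; ring
  have h4 := mul_left_cancel₀ (pow_ne_zero r Polynomial.X_ne_zero) h3
  have h5 := congrArg (Polynomial.eval T) h4
  rw [Polynomial.eval_mul, Polynomial.eval_pow, Polynomial.eval_C, Polynomial.eval_comp,
    Polynomial.eval_mul, Polynomial.eval_C, Polynomial.eval_X] at h5
  exact h5

theorem eval_deh (P : MvPolynomial (Fin 2) k) (T : k) :
    (MvPolynomial.aeval (![1, Polynomial.X] : Fin 2 → Polynomial k) P).eval T =
      MvPolynomial.aeval (![1, T] : Fin 2 → k) P := by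
  have h := aeval_poly (K := k) P Polynomial.X T
  rw [Polynomial.aeval_X] at h
  rw [← h]
  exact (Polynomial.coe_aeval_eq_eval T ▸ rfl)

theorem comp_deh (P : MvPolynomial (Fin 2) k) :
    (MvPolynomial.aeval (![1, Polynomial.X] : Fin 2 → Polynomial k) P).comp
      (Polynomial.X ^ m) =
      MvPolynomial.aeval (![1, Polynomial.X ^ m] : Fin 2 → Polynomial k) P := by
  have h1 : ∀ Q : Polynomial k, Q.comp (Polynomial.X ^ m) =
      Polynomial.aeval (Polynomial.X ^ m : Polynomial k) Q := fun Q => rfl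
  rw [h1]
  have h := MvPolynomial.comp_aeval_apply (R := k) (![1, Polynomial.X] : Fin 2 → Polynomial k)
    (Polynomial.aeval (Polynomial.X ^ m : Polynomial k)) P
  rw [h]
  congr 2
  funext i
  fin_cases i
  · exact map_one _
  · exact Polynomial.aeval_X _

/-- The automorphism. -/
noncomputable def autMul [Infinite k] (h : IsMul W V m j) {g : k} (hg0 : g ≠ 0)
    (hg : g ^ m = 1) : Aut V where
  d := g
  c := 0
  e := g⁻¹ ^ j
  hd := hg0
  he := pow_ne_zero _ (inv_ne_zero hg0)
  hA := by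
    have hC : (MvPolynomial.C ((g⁻¹ ^ j) ^ 4) * V.A).IsHomogeneous (4 * V.N) := by
      have := (MvPolynomial.isHomogeneous_C (Fin 2) ((g⁻¹ ^ j) ^ 4)).mul V.hA
      rwa [zero_add] at this
    refine form_ext (affF_hom g 0 V.hA) hC fun T => ?_
    rw [aeval_affF, map_mul, MvPolynomial.algHom_C]
    have e : affV (K := k) g 0 ![1, T] = ![1, g * T] := by
      funext i
      fin_cases i
      · rfl
      · change g * T + 0 * 1 = g * T
        ring
    rw [e, ← eval_deh, ← eval_deh]
    have h1 := comp_of_mul (r := 4 * j) hg0 hg (h.A.trans (comp_deh W.A).symm) T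
    rw [← h1]
    change _ = (g⁻¹ ^ j) ^ 4 * _
    have h2 : (g⁻¹ ^ j) ^ 4 * g ^ (4 * j) = 1 := by
      rw [← pow_mul, mul_comm j 4, ← mul_pow, inv_mul_cancel₀ hg0, one_pow]
    rw [← mul_assoc, h2, one_mul]
  hB := by
    have hC : (MvPolynomial.C ((g⁻¹ ^ j) ^ 6) * V.B).IsHomogeneous (6 * V.N) := by
      have := (MvPolynomial.isHomogeneous_C (Fin 2) ((g⁻¹ ^ j) ^ 6)).mul V.hB
      rwa [zero_add] at this
    refine form_ext (affF_hom g 0 V.hB) hC fun T => ?_
    rw [aeval_affF, map_mul, MvPolynomial.algHom_C]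
    have e : affV (K := k) g 0 ![1, T] = ![1, g * T] := by
      funext i
      fin_cases i
      · rfl
      · change g * T + 0 * 1 = g * T
        ring
    rw [e, ← eval_deh, ← eval_deh]
    have h1 := comp_of_mul (r := 6 * j) hg0 hg (h.B.trans (comp_deh W.B).symm) T
    rw [← h1]
    change _ = (g⁻¹ ^ j) ^ 6 * _
    have h2 : (g⁻¹ ^ j) ^ 6 * g ^ (6 * j) = 1 := by
      rw [← pow_mul, mul_comm j 6, ← mul_pow, inv_mul_cancel₀ hg0, one_pow]
    rw [← mul_assoc, h2, one_mul]

/-- The automorphism of the points depends only on `d`, `c`, `e`. -/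
theorem aut_congr {F F' : Aut V} (hd : F.d = F'.d) (hc : F.c = F'.c) (he : F.e = F'.e)
    (q : WPt V K) : aut F q = aut F' q := by
  have h : F = F' := by
    cases F; cases F'
    simp only at hd hc he
    subst hd hc he
    rfl
  rw [h]

end

section

variable {O : Type} [Field O] {W V : Wei O} {m j : ℕ}

theorem isMul_bc (h : IsMul W V m j) (Ω : Type) [Field Ω] [Algebra O Ω] :
    IsMul (bcW W Ω) (bcW V Ω) m j := by
  have h1 : ∀ P : MvPolynomial (Fin 2) O,
      MvPolynomial.aeval (![1, Polynomial.X] : Fin 2 → Polynomial Ω)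
        (MvPolynomial.map (algebraMap O Ω) P) =
        (MvPolynomial.aeval (![1, Polynomial.X] : Fin 2 → Polynomial O) P).map
          (algebraMap O Ω) := by
    intro P
    have := aeval_map_poly (Ω := Ω) (Polynomial.X : Polynomial O) P
    rwa [Polynomial.map_X] at this
  have h2 : ∀ P : MvPolynomial (Fin 2) O,
      MvPolynomial.aeval (![1, Polynomial.X ^ m] : Fin 2 → Polynomial Ω)
        (MvPolynomial.map (algebraMap O Ω) P) =
        (MvPolynomial.aeval (![1, Polynomial.X ^ m] : Fin 2 → Polynomial O) P).map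
          (algebraMap O Ω) := by
    intro P
    have := aeval_map_poly (Ω := Ω) (Polynomial.X ^ m : Polynomial O) P
    rwa [Polynomial.map_pow, Polynomial.map_X] at this
  constructor
  · have h3 := congrArg (Polynomial.map (algebraMap O Ω)) h.A
    rw [Polynomial.map_mul, Polynomial.map_pow, Polynomial.map_X, ← h1, ← h2] at h3
    exact h3
  · have h3 := congrArg (Polynomial.map (algebraMap O Ω)) h.B
    rw [Polynomial.map_mul, Polynomial.map_pow, Polynomial.map_X, ← h1, ← h2] at h3
    exact h3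

theorem disc_mul [IsAlgClosed O] (hm : m ≠ 0) (h : IsMul W V m j)
    (hΔ : 4 * W.A ^ 3 + 27 * W.B ^ 2 ≠ 0) : 4 * V.A ^ 3 + 27 * V.B ^ 2 ≠ 0 := by
  intro h0
  apply hΔ
  have : Infinite O := IsAlgClosed.instInfinite
  have hA : (W.A ^ 3).IsHomogeneous (12 * W.N) := by
    have := W.hA.pow 3
    rwa [show 4 * W.N * 3 = 12 * W.N by ring] at this
  have hB : (W.B ^ 2).IsHomogeneous (12 * W.N) := by
    have := W.hB.pow 2
    rwa [show 6 * W.N * 2 = 12 * W.N by ring] at this
  have hom : (4 * W.A ^ 3 + 27 * W.B ^ 2).IsHomogeneous (12 * W.N) := by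
    have h4 : (4 : MvPolynomial (Fin 2) O) = MvPolynomial.C 4 := (map_ofNat _ _).symm
    have h27 : (27 : MvPolynomial (Fin 2) O) = MvPolynomial.C 27 := (map_ofNat _ _).symm
    rw [h4, h27]
    have e1 := (MvPolynomial.isHomogeneous_C (Fin 2) (4 : O)).mul hA
    have e2 := (MvPolynomial.isHomogeneous_C (Fin 2) (27 : O)).mul hB
    rw [zero_add] at e1 e2
    exact e1.add e2
  refine form_ext hom (MvPolynomial.isHomogeneous_zero _ _ _) fun T => ?_
  rw [map_zero]
  obtain ⟨z, hz⟩ := IsAlgClosed.exists_pow_nat_eq T (Nat.pos_of_ne_zero hm)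
  have h5 := congrArg (MvPolynomial.aeval ![1, z]) h0
  rw [map_add, map_mul, map_mul, map_pow, map_pow, map_zero, map_ofNat, map_ofNat] at h5
  rw [map_add, map_mul, map_mul, map_pow, map_pow, map_ofNat, map_ofNat, ← hz,
    ← isMul_aeval_A h z, ← isMul_aeval_B h z]
  linear_combination z ^ (12 * j) * h5

end

section

variable {O L E M : Type} [Field O] [Field L] [Field E] [Field M]
  [Algebra O L] [Algebra O E] [Algebra L E] [IsScalarTower O L E] [Algebra O M] {W V : Wei O}
  {m j : ℕ}

theorem chg_mul (h : IsMul W V m j) {t w : L} (hw : w ^ m = t) (hw0 : w ≠ 0) :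
    Chg W V t w ((w ^ j)⁻¹) where
  mem := by
    rw [← hw]
    exact pow_mem (mem_adjoin_simple_self O w) m
  hmem := inv_mem (pow_mem (mem_adjoin_simple_self O w) j)
  ne := inv_ne_zero (pow_ne_zero _ hw0)
  A := by
    rw [← hw, ← isMul_aeval_A h, ← mul_assoc]
    have h2 : ((w ^ j)⁻¹) ^ 4 * w ^ (4 * j) = 1 := by
      rw [inv_pow, ← pow_mul, mul_comm j 4, inv_mul_cancel₀ (pow_ne_zero _ hw0)]
    rw [h2, one_mul]
  B := by
    rw [← hw, ← isMul_aeval_B h, ← mul_assoc]
    have h2 : ((w ^ j)⁻¹) ^ 6 * w ^ (6 * j) = 1 := by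
      rw [inv_pow, ← pow_mul, mul_comm j 6, inv_mul_cancel₀ (pow_ne_zero _ hw0)]
    rw [h2, one_mul]

/-- Voisin's property for the nontrivial characters of the multiplicative base change `M = R (w)`,
`w ^ m = t`, of a genus one fibration, after every extension of the field of constants, on every
projective model on which the group acts by linear maps, given the property for a minimal
Weierstrass equation of the base change. -/
theorem voisinChi_mul [IsAlgClosed O] [Good O] (hm : m ≠ 0)
    (hΔ : 4 * W.A ^ 3 + 27 * W.B ^ 2 ≠ 0) (hWV : IsMul W V m j) (hV : Minimal V)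
    (T : Torsor W L E) {w : L} (hw : w ^ m = T.t) (f : M →ₐ[O] E)
    (hf : ∀ z, ∀ σ ∈ T.G, σ (algebraMap L E w) = algebraMap L E w → σ (f z) = f z)
    {σ₀ : E ≃ₐ[O] E} (hσ₀ : σ₀ ∈ T.G) {g : O} (hg : g ^ m = 1)
    (hσw : σ₀ (algebraMap L E w) = algebraMap O E g * algebraMap L E w) (s : M ≃ₐ[O] M)
    (hs : ∀ z, f (s z) = σ₀ (f z)) (Ω : Type) [Field Ω] [Algebra O Ω] [IsAlgClosed Ω]
    [Good Ω] :
    ∃ (G : Type) (_ : Field G) (_ : Algebra Ω G) (i : M →+* G) (σ : G ≃ₐ[Ω] G),
      IsConst O Ω M G i ∧ (∀ z, σ (i z) = i (s z)) ∧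
      ∀ (N : ℕ) (ξ : Fin N → G), ξ ≠ 0 → ∀ g' : Matrix (Fin N) (Fin N) Ω,
        (∀ l, σ (ξ l) = mulV g' ξ l) →
        ∀ t : (proj Ω (van Ω ξ)).Pt → (proj Ω (van Ω ξ)).Pt,
          (∀ x, ∃ c : Ω, ∀ l, mulV g' x.1.rep l = c * (t x).1.rep l) →
          ∀ (n : ℕ) (χ : ℂ), χ ≠ 1 →
            (∀ F : Aut (bcW V Ω), F.d = algebraMap O Ω g → F.c = 0 →
              F.e = (algebraMap O Ω g)⁻¹ ^ j → VoisinChi (bcW V Ω).surface (aut F) χ n) →
            VoisinChi (proj Ω (van Ω ξ)) t χ n := by
  have : Infinite O := IsAlgClosed.instInfinite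
  have hg0 : g ≠ 0 := by
    rintro rfl
    rw [zero_pow hm] at hg
    exact zero_ne_one hg
  have hsm : s ^ m = 1 := by
    refine pow_eq_one_of T f hf hσ₀ s hs ?_
    have h1 : ∀ i : ℕ, (σ₀ ^ i) (algebraMap L E w) = algebraMap O E (g ^ i) * algebraMap L E w := by
      intro i
      induction i with
      | zero => rw [pow_zero, pow_zero, map_one, one_mul]; rfl
      | succ i ih =>
        rw [pow_succ']
        change σ₀ ((σ₀ ^ i) _) = _
        rw [ih, map_mul, AlgEquiv.commutes, hσw, pow_succ, map_mul]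
        ring
    rw [h1, hg, map_one, one_mul]
  have hw0 : w ≠ 0 := by
    rintro rfl
    apply T.ht
    rw [← hw, zero_pow hm]
    exact isAlgebraic_zero
  obtain ⟨G, _, _, i, σ, hi, hσ, H⟩ := voisinChi_base hm (disc_mul hm hWV hΔ) hV T
    (chg_mul hWV hw hw0) (autMul hWV hg0 hg) f hf hσ₀
    (by
      change σ₀ (algebraMap L E w) = algebraMap O E g * algebraMap L E w + algebraMap O E 0
      rw [hσw, map_zero, add_zero])
    (by
      change σ₀ (algebraMap L E (w ^ j)⁻¹) = algebraMap O E (g⁻¹ ^ j) * algebraMap L E (w ^ j)⁻¹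
      simp only [map_inv₀, map_pow]
      rw [hσw, mul_pow, mul_inv, inv_pow]) s hs hsm Ω
  refine ⟨G, inferInstance, inferInstance, i, σ, hi, hσ, fun N ξ hξ g' hg' t ht n χ hχ hJ => ?_⟩
  refine H N ξ hξ g' hg' t ht n χ hχ (hJ _ rfl (map_zero _) ?_)
  change algebraMap O Ω (g⁻¹ ^ j) = _
  rw [map_pow, map_inv₀]

end

end CX.CHV
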