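import Mathlib
import Pool.Agent.Helper40.CX.CHV.Mul
import Pool.Agent.Helper40.CX.CHI.EqnP
import Pool.Agent.Helper9.CHI.Main
import Pool.Agent.Helper35.EQ.Bc
import Pool.Agent.Helper43.CH.Model

/-!
# The multiplicative base changes of all rational elliptic surfaces with nonconstant `j`, given the
function theorem
-/

set_option autoImplicit false
set_option linter.unusedSectionVars false

namespace CX.CHV

open IntermediateField CX.CHI CX.VC CX.Pool.Agent.Helper21.TO CX.BC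
open CX.CHC (IsMul exists_min_mul)
open CX.Pool.Agent.Helper51.EW (Wei)
open _root_.Pool.Agent.Helper9.CHI _root_.Pool.Agent.Helper43.CH

/-- The function theorem for the minimal models of the multiplicative base changes of the rational
Weierstrass equations with nonconstant `j`. -/
def FunMul : Prop :=
  ∀ (k : Type) [Field k] [IsAlgClosed k] [Good k] (W V : Wei k) (m j : ℕ), (m : k) ≠ 0 →
    IsMul W V m j → Minimal V → W.N = 1 →
    (∀ c d : k, (c ≠ 0 ∨ d ≠ 0) → MvPolynomial.C c * W.A ^ 3 ≠ MvPolynomial.C d * W.B ^ 2) →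
    ∀ g : k, IsPrimitiveRoot g m → ∀ F : Aut V, F.d = g → F.c = 0 → F.e = g⁻¹ ^ j →
    ∀ χ : ℂ, χ ≠ 1 → VoisinChi V.surface (aut F) χ 2

section

variable {O L E M : Type} [Field O] [Field L] [Field E] [Field M]
  [Algebra O L] [Algebra O E] [Algebra L E] [IsScalarTower O L E] [Algebra O M] {W V : Wei O}
  {m j : ℕ}

theorem hasVoisinChi_mul (H : FunMul) [IsAlgClosed O] [Good O] (hmO : (m : O) ≠ 0) (hN : W.N = 1)
    (hj : ∀ c d : O, (c ≠ 0 ∨ d ≠ 0) →
      MvPolynomial.C c * W.A ^ 3 ≠ MvPolynomial.C d * W.B ^ 2)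
    (hWV : IsMul W V m j) (hV : Minimal V) (T : Torsor W L E)
    {w : L} (hw : w ^ m = T.t) (f : M →ₐ[O] E)
    (hf : ∀ z, ∀ σ ∈ T.G, σ (algebraMap L E w) = algebraMap L E w → σ (f z) = f z)
    {σ₀ : E ≃ₐ[O] E} (hσ₀ : σ₀ ∈ T.G) {g : O} (hg : IsPrimitiveRoot g m)
    (hσw : σ₀ (algebraMap L E w) = algebraMap O E g * algebraMap L E w) (s : M ≃ₐ[O] M)
    (hs : ∀ z, f (s z) = σ₀ (f z)) (hsm : s ^ m = 1) : HasVoisinChi O M s m := by
  have hm : m ≠ 0 := by
    rintro rfl
    exact hmO Nat.cast_zero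
  refine hasVoisinChi_of hsm hm fun Ω _ _ _ _ => ?_
  obtain ⟨G, _, _, i, σ, hi, hσ, H1⟩ := voisinChi_mul hm (disc_of_hj hj) hWV hV T hw f hf hσ₀
    hg.pow_eq_one hσw s hs Ω
  refine ⟨G, inferInstance, inferInstance, i, σ, hi, hσ, fun N ξ g' hξ hg' r hr χ _ hχ => ?_⟩
  have hmΩ : (m : Ω) ≠ 0 := by
    have h1 := (_root_.map_ne_zero (algebraMap O Ω)).2 hmO
    rwa [map_natCast] at h1
  refine H1 N ξ hξ g' hg' r (fun x => ?_) 2 χ hχ fun F hd hc he => ?_
  · obtain ⟨c, -, hc⟩ := hr x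
    exact ⟨c, fun l => (hc l).symm⟩
  · exact H Ω (bcW W Ω) (bcW V Ω) m j hmΩ (isMul_bc hWV Ω)
      (minimal_bc (disc_mul hm hWV (disc_of_hj hj)) hV) hN
      (_root_.Pool.Agent.Helper35.EQ.hj_bc hj Ω) (algebraMap O Ω g)
      (hg.map_of_injective (algebraMap O Ω).injective) F hd hc he χ hχ

end

section

variable {O M : Type} [Field O] [IsAlgClosed O] [CX.Good O] [Field M] [Algebra O M] {W V : Wei O}
  {m j : ℕ} {x y w : M}

/-- Voisin's property for the characters, for the fields given by an equation. -/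
theorem hasVoisinChi_mul_eqn (H : FunMul) (hN : W.N = 1) (hmO : (m : O) ≠ 0)
    (hj : ∀ c d : O, (c ≠ 0 ∨ d ≠ 0) →
      MvPolynomial.C c * W.A ^ 3 ≠ MvPolynomial.C d * W.B ^ 2)
    (hWV : IsMul W V m j) (hV : Minimal V) (hxw : AlgebraicIndependent O ![x, w])
    (heq : y ^ 2 = x ^ 3 + MvPolynomial.aeval ![1, w ^ m] W.A * x +
      MvPolynomial.aeval ![1, w ^ m] W.B)
    (hgen : adjoin O {x, y, w} = ⊤) {ζ : O} (hζ : IsPrimitiveRoot ζ m) (s : M ≃ₐ[O] M)
    (hsx : s x = x) (hsy : s y = y) (hsw : s w = algebraMap O M ζ * w) :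
    HasVoisinChi O M s m := by
  obtain ⟨L, E, _, _, _, _, _, _, T, w0, f, σ₀, hw, hf, hσ₀, hσw, hs⟩ :=
    triv_data hmO (disc_of_hj hj) hxw heq hgen hζ.pow_eq_one s hsx hsy hsw
  have hpow : s ^ m = 1 := by
    refine pow_eq_one_of T f hf hσ₀ s hs ?_
    have h1 : ∀ i : ℕ, (σ₀ ^ i) (algebraMap L E w0) =
        algebraMap O E (ζ ^ i) * algebraMap L E w0 := by
      intro i
      induction i with
      | zero => rw [pow_zero, pow_zero, map_one, one_mul]; rfl
      | succ i ih =>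
        rw [pow_succ']
        change σ₀ ((σ₀ ^ i) _) = _
        rw [ih, map_mul, AlgEquiv.commutes, hσw, pow_succ, map_mul]
        ring
    rw [h1, hζ.pow_eq_one, map_one, one_mul]
  exact hasVoisinChi_mul H hmO hN hj hWV hV T hw f hf hσ₀ hζ hσw s hs hpow

/-- Voisin's property for the nontrivial characters of the automorphism `w ↦ ζ w` of the field
`O (x, y, w)`, `y ^ 2 = x ^ 3 + A (w ^ m) x + B (w ^ m)`, where `A` and `B` are polynomials of degree
at most `4` and `6`, and `A ^ 3` and `B ^ 2` are linearly independent. -/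
theorem hasVoisinChi_modelM (H : FunMul) {A B : Polynomial O}
    (hA : A.natDegree ≤ 4) (hB : B.natDegree ≤ 6)
    (hj : ∀ c d : O, Polynomial.C c * A ^ 3 = Polynomial.C d * B ^ 2 → c = 0 ∧ d = 0)
    (hmO : (m : O) ≠ 0) (h : IsModel O m A B x y w) {ζ : O} (hζ : IsPrimitiveRoot ζ m)
    (s : M ≃ₐ[O] M) (hsx : s x = x) (hsy : s y = y) (hsw : s w = algebraMap O M ζ * w) :
    HasVoisinChi O M s m := by
  have : Infinite O := IsAlgClosed.instInfinite
  have hj' : ∀ c d : O, (c ≠ 0 ∨ d ≠ 0) →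
      MvPolynomial.C c * (weiP A B).A ^ 3 ≠ MvPolynomial.C d * (weiP A B).B ^ 2 := by
    intro c d hcd he
    have h2 := congrArg (MvPolynomial.aeval ![1, (Polynomial.X : Polynomial O)]) he
    change MvPolynomial.aeval ![1, (Polynomial.X : Polynomial O)]
      (MvPolynomial.C c * homg 4 A ^ 3) = MvPolynomial.aeval ![1, (Polynomial.X : Polynomial O)]
      (MvPolynomial.C d * homg 6 B ^ 2) at h2
    rw [map_mul, map_mul, map_pow, map_pow, aeval_homg_one hA, aeval_homg_one hB,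
      MvPolynomial.algHom_C, MvPolynomial.algHom_C, Polynomial.aeval_X_left_apply,
      Polynomial.aeval_X_left_apply] at h2
    obtain ⟨h3, h4⟩ := hj c d h2
    rcases hcd with h5 | h5
    · exact h5 h3
    · exact h5 h4
  obtain ⟨V, j, hV1, hV2⟩ := exists_min_mul hmO rfl hj'
  refine hasVoisinChi_mul_eqn H (W := weiP A B) rfl hmO hj' hV1 hV2 h.ind ?_ h.gen hζ s hsx hsy hsw
  change y ^ 2 = x ^ 3 + MvPolynomial.aeval ![1, w ^ m] (homg 4 A) * x +
      MvPolynomial.aeval ![1, w ^ m] (homg 6 B)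
  rw [aeval_homg_one hA, aeval_homg_one hB]
  exact h.eqn

end

end CX.CHV
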