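import Mathlib
import Pool.Agent.Helper40.CX.CHV.Main
import Pool.Agent.Helper98.CHC.Min

/-!
# The additive base changes of all rational elliptic surfaces with nonconstant `j`
-/

set_option autoImplicit false

namespace CX.CHV

open CX.CHC (exists_min_as)
open _root_.Pool.Agent.Helper9.CHI (HasVoisinChi)
open _root_.Pool.Agent.Helper73.CHA (IsModelA)

/-- Voisin's property for the nontrivial characters of the automorphism `w ↦ w + 1` of the field
`O (x, y, w)`, `y ^ 2 = x ^ 3 + A (w ^ p - w) x + B (w ^ p - w)`, where `A` and `B` are polynomials of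
degree at most `4` and `6`, and `A ^ 3` and `B ^ 2` are linearly independent. -/
theorem hasVoisinChi_modelA {O M : Type} [Field O] [IsAlgClosed O] [CX.Good O] [Field M]
    [Algebra O M] {p : ℕ} [Fact p.Prime] [CharP O p] {A B : Polynomial O} {x y w : M}
    (h : IsModelA O p A B x y w) (hA : A.natDegree ≤ 4) (hB : B.natDegree ≤ 6)
    (hj : ∀ c d : O, Polynomial.C c * A ^ 3 = Polynomial.C d * B ^ 2 → c = 0 ∧ d = 0)
    (s : M ≃ₐ[O] M) (hsx : s x = x) (hsy : s y = y) (hsw : s w = w + 1) :
    HasVoisinChi O M s p := by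
  have : Infinite O := IsAlgClosed.instInfinite
  exact hasVoisinChi_modelA_of hA hB hj (fun hj' => exists_min_as rfl hj') h s hsx hsy hsw

end CX.CHV
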