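import Mathlib
import Pool.Agent.Helper40.CX.CHV.Defs
import Pool.Agent.Helper40.CX.H51EW.Odd2
import Pool.Agent.Helper40.CX.H83VN.Pnt

/-!
# The fibres which are mapped to themselves

Let `Ψ` be an odd function on `V ^ n` with the character `χ ≠ 1` of an automorphism which maps a fibre
to itself, by `(x, y) ↦ (ε ^ 2 x, ε ^ 3 y)`. Then `Ψ` is zero if a component is a point of this fibre,
unless the fibre is smooth, `ε` has order `2`, `3`, `4` or `6`, and `χ` is a primitive root of unity of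
the same order.
-/

set_option autoImplicit false
set_option linter.unusedSectionVars false

namespace CX.CHV

open CX.VC CX.VF Function
open CX.Pool.Agent.Helper51.EW

universe u

variable {k : Type u} [Field k] [IsAlgClosed k] [Good k] {V : Wei k}

theorem orderOf_six {M : Type*} [Monoid M] {a : M} (h6 : a ^ 6 = 1) (h2 : a ^ 2 ≠ 1)
    (h3 : a ^ 3 ≠ 1) : orderOf a = 6 := by
  have h1 : orderOf a ∣ 6 := orderOf_dvd_of_pow_eq_one h6
  have h4 : orderOf a ≤ 6 := Nat.le_of_dvd (by norm_num) h1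
  have n2 : ¬ orderOf a ∣ 2 := fun h => h2 (orderOf_dvd_iff_pow_eq_one.mp h)
  have n3 : ¬ orderOf a ∣ 3 := fun h => h3 (orderOf_dvd_iff_pow_eq_one.mp h)
  generalize orderOf a = m at *
  interval_cases m <;> revert h1 n2 n3 <;> decide

/-- The values on a fibre `y ^ 2 = x ^ 3 + b` of an odd function which is invariant under
`x ↦ ω x`. -/
theorem null_cube {ψ : V.surface.Pt → ℂ} (h : Kills V.surface ψ) (ho : ∀ p, ψ (neg p) = -ψ p)
    {u : Fin 2 → k} (hu : u ≠ 0) (hA : MvPolynomial.aeval u V.A = 0)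
    (hB : MvPolynomial.aeval u V.B ≠ 0) {ω : k} (hω : IsPrimitiveRoot ω 3)
    (hi : ∀ x y, y ^ 2 = x ^ 3 + MvPolynomial.aeval u V.A * x + MvPolynomial.aeval u V.B →
      ψ (apt V u (ω * x) y) = ψ (apt V u x y)) {x y : k}
    (he : y ^ 2 = x ^ 3 + MvPolynomial.aeval u V.A * x + MvPolynomial.aeval u V.B) :
    ψ (apt V u x y) = 0 := by
  obtain ⟨b, hb⟩ : ∃ b : k, b = MvPolynomial.aeval u V.B := ⟨_, rfl⟩
  rw [hA, ← hb, zero_mul, add_zero] at he
  rw [← hb] at hB
  simp only [hA, ← hb, zero_mul, add_zero] at hi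
  have hfix : ∀ p, neg p = p → ψ p = 0 := by
    intro p hp
    have h1 := ho p
    rw [hp] at h1
    have h2 : (2 : ℂ) * ψ p = 0 := by linear_combination h1
    exact (mul_eq_zero.mp h2).resolve_left two_ne_zero
  -- the cube roots
  have hroot : ∀ e x : k, e ^ 3 = x ^ 3 → ∀ y, y ^ 2 = x ^ 3 + b →
      ψ (apt V u e y) = ψ (apt V u x y) := by
    intro e x hex y hy
    by_cases hx : x = 0
    · rw [hx, zero_pow three_ne_zero] at hex
      rw [hx, pow_eq_zero_iff three_ne_zero |>.mp hex]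
    · have h1 : (e / x) ^ 3 = 1 := by
        rw [div_pow, hex, div_self (pow_ne_zero _ hx)]
      obtain ⟨i, -, h2⟩ := hω.eq_pow_of_pow_eq_one h1
      have h3 : e = ω ^ i * x := by
        rw [h2, div_mul_cancel₀ _ hx]
      rw [h3]
      have h4 : ∀ j : ℕ, ψ (apt V u (ω ^ j * x) y) = ψ (apt V u x y) := by
        intro j
        induction j with
        | zero => rw [pow_zero, one_mul]
        | succ j ih =>
          rw [← ih, pow_succ', mul_assoc]
          apply hi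
          rw [mul_pow, ← pow_mul, mul_comm j 3, pow_mul, hω.pow_eq_one, one_pow, one_mul]
          exact hy
      exact h4 i
  obtain ⟨c, hc⟩ := IsAlgClosed.exists_pow_nat_eq b (n := 2) two_pos
  obtain ⟨K, _, _, τ, Y, hK, hτ, hY⟩ := exists_poly_roots (k := k) (m := 3) three_ne_zero
    (fun _ : Fin 1 => (Polynomial.X ^ 2 - Polynomial.C b : Polynomial k))
  have hY0 : Y 0 ^ 3 = τ ^ 2 - algebraMap k K b := by
    rw [hY 0]
    simp
  have hAK : MvPolynomial.aeval (fun i => algebraMap k K (u i)) V.A = 0 := by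
    have := MvPolynomial.aeval_algebraMap_apply K u V.A
    rw [hA, map_zero] at this
    exact this
  have hBK : MvPolynomial.aeval (fun i => algebraMap k K (u i)) V.B = algebraMap k K b := by
    have := MvPolynomial.aeval_algebraMap_apply K u V.B
    rw [← hb] at this
    exact this
  have heq : τ ^ 2 = Y 0 ^ 3 + MvPolynomial.aeval (fun i => algebraMap k K (u i)) V.A * Y 0 +
      MvPolynomial.aeval (fun i => algebraMap k K (u i)) V.B := by
    rw [hAK, hBK, hY0]; ring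
  have hval : ∀ (t x : k), t ^ 2 = x ^ 3 + b → ∀ v : Place k K, IsRes v τ t →
      ψ (V.surface.eval hK (apt V (fun i => algebraMap k K (u i)) (Y 0) τ) v) =
        ψ (apt V u x t) := by
    intro t x htx v hv
    obtain ⟨e, he1, he2⟩ := exists_res_of_pow hK three_ne_zero (x := Y 0) (v := v)
      (c := t ^ 2 - b) (by
        rw [hY0]
        exact (hv.pow 2).sub (isRes_const _))
    rw [eval_apt hK v heq hu (fun i => isRes_const _) he1 hv]
    exact hroot e x (by rw [he2, htx]; ring) t htx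
  -- the points with `x = 0`
  have hc0 : c ≠ 0 := by
    rintro rfl
    rw [zero_pow two_ne_zero] at hc
    exact hB hc.symm
  have hcc : c ≠ -c := by
    intro h1
    apply hc0
    have h2 : (2 : k) * c = 0 := by linear_combination h1
    exact (mul_eq_zero.mp h2).resolve_left two_ne_zero
  have hz1 : ψ (apt V u 0 c) = ψ (apt V u 0 (-c)) :=
    path h hK _ hτ hcc (hval c 0 (by rw [hc]; ring)) (hval (-c) 0 (by rw [neg_sq, hc]; ring))
  have hz2 : ψ (apt V u 0 (-c)) = -ψ (apt V u 0 c) := by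
    rw [← neg_apt hu (by rw [hA, ← hb, hc]; ring), ho]
  have hz : ψ (apt V u 0 c) = 0 := by
    have h2 : (2 : ℂ) * ψ (apt V u 0 c) = 0 := by linear_combination hz1 + hz2
    exact (mul_eq_zero.mp h2).resolve_left two_ne_zero
  by_cases hy : y = c
  · rw [hy] at he ⊢
    have hx : x = 0 := by
      rw [hc] at he
      have h1 : x ^ 3 = 0 := by linear_combination -he
      exact pow_eq_zero_iff three_ne_zero |>.mp h1
    rw [hx]
    exact hz
  · rw [← hz]
    exact path h hK _ hτ hy (hval y x he) (hval c 0 (by rw [hc]; ring))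

/-- The values on a fibre which is mapped to itself. -/
theorem null_core {ψ : V.surface.Pt → ℂ} (h : Kills V.surface ψ) (ho : ∀ p, ψ (neg p) = -ψ p)
    {u : Fin 2 → k} (hu : u ≠ 0)
    (hd : 4 * MvPolynomial.aeval u V.A ^ 3 + 27 * MvPolynomial.aeval u V.B ^ 2 ≠ 0)
    {ε : k} (hA : ε ^ 4 * MvPolynomial.aeval u V.A = MvPolynomial.aeval u V.A)
    (hB : ε ^ 6 * MvPolynomial.aeval u V.B = MvPolynomial.aeval u V.B) {χ : ℂ} (hχ : χ ≠ 1)
    (hr : ∀ x y, y ^ 2 = x ^ 3 + MvPolynomial.aeval u V.A * x + MvPolynomial.aeval u V.B →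
      ψ (apt V u (ε ^ 2 * x) (ε ^ 3 * y)) = χ * ψ (apt V u x y)) {x y : k}
    (he : y ^ 2 = x ^ 3 + MvPolynomial.aeval u V.A * x + MvPolynomial.aeval u V.B) :
    ψ (apt V u x y) = 0 ∨ ((orderOf ε = 2 ∨ orderOf ε = 3 ∨ orderOf ε = 4 ∨ orderOf ε = 6) ∧
      IsPrimitiveRoot χ (orderOf ε)) := by
  by_cases h0 : ψ (apt V u x y) = 0
  · exact Or.inl h0
  right
  -- the powers
  have hfixj : ∀ (a c : k), c * a = a → ∀ j : ℕ, c ^ j * a = a := by
    intro a c hc j
    induction j with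
    | zero => rw [pow_zero, one_mul]
    | succ j ih => rw [pow_succ, mul_assoc, hc, ih]
  have heqj : ∀ j : ℕ, (ε ^ (3 * j) * y) ^ 2 = (ε ^ (2 * j) * x) ^ 3 +
      MvPolynomial.aeval u V.A * (ε ^ (2 * j) * x) + MvPolynomial.aeval u V.B := by
    intro j
    have hAj : ε ^ (4 * j) * MvPolynomial.aeval u V.A = MvPolynomial.aeval u V.A := by
      rw [pow_mul]
      exact hfixj _ _ hA j
    have hBj : ε ^ (6 * j) * MvPolynomial.aeval u V.B = MvPolynomial.aeval u V.B := by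
      rw [pow_mul]
      exact hfixj _ _ hB j
    have e1 : (ε ^ (3 * j) * y) ^ 2 = ε ^ (6 * j) * y ^ 2 := by ring
    rw [e1, he]
    have e2 : ε ^ (6 * j) * (x ^ 3 + MvPolynomial.aeval u V.A * x + MvPolynomial.aeval u V.B) =
        (ε ^ (2 * j) * x) ^ 3 + (ε ^ (4 * j) * MvPolynomial.aeval u V.A) * (ε ^ (2 * j) * x) +
          ε ^ (6 * j) * MvPolynomial.aeval u V.B := by ring
    rw [e2, hAj, hBj]
  have hpow : ∀ j : ℕ, ψ (apt V u (ε ^ (2 * j) * x) (ε ^ (3 * j) * y)) =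
      χ ^ j * ψ (apt V u x y) := by
    intro j
    induction j with
    | zero => rw [mul_zero, mul_zero, pow_zero, pow_zero, one_mul, one_mul, one_mul]
    | succ j ih =>
      have h1 := hr _ _ (heqj j)
      have e1 : ε ^ 2 * (ε ^ (2 * j) * x) = ε ^ (2 * (j + 1)) * x := by ring
      have e2 : ε ^ 3 * (ε ^ (3 * j) * y) = ε ^ (3 * (j + 1)) * y := by ring
      rw [e1, e2, ih] at h1
      rw [h1]; ring
  have hone : ∀ j : ℕ, ε ^ j = 1 → χ ^ j = 1 := by
    intro j hj
    have h1 := hpow j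
    have e1 : ε ^ (2 * j) = 1 := by rw [mul_comm, pow_mul, hj, one_pow]
    have e2 : ε ^ (3 * j) = 1 := by rw [mul_comm, pow_mul, hj, one_pow]
    rw [e1, e2, one_mul, one_mul] at h1
    have h2 : (χ ^ j - 1) * ψ (apt V u x y) = 0 := by linear_combination -h1
    exact sub_eq_zero.mp ((mul_eq_zero.mp h2).resolve_right h0)
  have hneg : ∀ j : ℕ, ε ^ j = -1 → χ ^ j = -1 := by
    intro j hj
    have h1 := hpow j
    have e1 : ε ^ (2 * j) = 1 := by rw [mul_comm, pow_mul, hj]; ring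
    have e2 : ε ^ (3 * j) = -1 := by rw [mul_comm, pow_mul, hj]; ring
    rw [e1, e2, one_mul, neg_one_mul, ← neg_apt hu he, ho] at h1
    have h2 : (χ ^ j + 1) * ψ (apt V u x y) = 0 := by linear_combination -h1
    exact eq_neg_of_add_eq_zero_left ((mul_eq_zero.mp h2).resolve_right h0)
  -- the order of `ε`
  have h46 : ε ^ 4 = 1 ∨ (ε ^ 6 = 1 ∧ MvPolynomial.aeval u V.A = 0) := by
    by_cases hA0 : MvPolynomial.aeval u V.A = 0
    · right
      refine ⟨?_, hA0⟩
      have hB0 : MvPolynomial.aeval u V.B ≠ 0 := by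
        intro hB0
        apply hd
        rw [hA0, hB0]; ring
      have h1 : (ε ^ 6 - 1) * MvPolynomial.aeval u V.B = 0 := by linear_combination hB
      exact sub_eq_zero.mp ((mul_eq_zero.mp h1).resolve_right hB0)
    · left
      have h1 : (ε ^ 4 - 1) * MvPolynomial.aeval u V.A = 0 := by linear_combination hA
      exact sub_eq_zero.mp ((mul_eq_zero.mp h1).resolve_right hA0)
  have hε1 : ε ≠ 1 := by
    intro h1
    have := hone 1 (by rw [h1, pow_one])
    rw [pow_one] at this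
    exact hχ this
  have m2 : (-1 : ℂ) ≠ 1 := by norm_num
  have hsq : ε ^ 2 = 1 → orderOf ε = 2 ∧ IsPrimitiveRoot χ 2 := by
    intro h2
    have h1 : orderOf ε = 2 := orderOf_eq_prime h2 hε1
    refine ⟨h1, ?_⟩
    have h3 : ε = -1 := by
      have h4 : (ε - 1) * (ε + 1) = 0 := by linear_combination h2
      exact eq_neg_of_add_eq_zero_left ((mul_eq_zero.mp h4).resolve_left (sub_ne_zero.mpr hε1))
    have h5 := hneg 1 (by rw [pow_one, h3])
    rw [pow_one] at h5
    rw [h5]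
    exact IsPrimitiveRoot.neg_one 0 (by norm_num)
  rcases h46 with h4 | ⟨h6, hA0⟩
  · by_cases h2 : ε ^ 2 = 1
    · obtain ⟨h3, h5⟩ := hsq h2
      exact ⟨Or.inl h3, by rw [h3]; exact h5⟩
    · have h3 : ε ^ 2 = -1 := by
        have h5 : (ε ^ 2 - 1) * (ε ^ 2 + 1) = 0 := by linear_combination h4
        exact eq_neg_of_add_eq_zero_left ((mul_eq_zero.mp h5).resolve_left (sub_ne_zero.mpr h2))
      have h5 : orderOf ε = 4 := by
        have := orderOf_eq_prime_pow (p := 2) (n := 1) (x := ε) (by rwa [pow_one])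
          (by norm_num; exact h4)
        rw [this]; norm_num
      refine ⟨Or.inr (Or.inr (Or.inl h5)), ?_⟩
      rw [h5]
      have h6 := hneg 2 h3
      rw [IsPrimitiveRoot.iff_orderOf]
      have := orderOf_eq_prime_pow (p := 2) (n := 1) (x := χ) (by rw [pow_one, h6]; exact m2)
        (by
          norm_num
          rw [show (4 : ℕ) = 2 * 2 by norm_num, pow_mul, h6]; norm_num)
      rw [this]; norm_num
  · by_cases h2 : ε ^ 2 = 1
    · obtain ⟨h3, h5⟩ := hsq h2
      exact ⟨Or.inl h3, by rw [h3]; exact h5⟩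
    by_cases h3 : ε ^ 3 = 1
    · have h5 : orderOf ε = 3 := orderOf_eq_prime h3 hε1
      refine ⟨Or.inr (Or.inl h5), ?_⟩
      rw [h5, IsPrimitiveRoot.iff_orderOf]
      exact orderOf_eq_prime (hone 3 h3) hχ
    · have h5 : ε ^ 3 = -1 := by
        have h7 : (ε ^ 3 - 1) * (ε ^ 3 + 1) = 0 := by linear_combination h6
        exact eq_neg_of_add_eq_zero_left ((mul_eq_zero.mp h7).resolve_left (sub_ne_zero.mpr h3))
      have h7 : orderOf ε = 6 := orderOf_six h6 h2 h3
      refine ⟨Or.inr (Or.inr (Or.inr h7)), ?_⟩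
      rw [h7]
      have h8 := hneg 3 h5
      -- `χ ^ 2 = 1` is impossible
      have h9 : χ ^ 2 ≠ 1 := by
        intro h9
        apply h0
        have hω : IsPrimitiveRoot (ε ^ 4) 3 := by
          rw [IsPrimitiveRoot.iff_orderOf]
          refine orderOf_eq_prime (by rw [← pow_mul]; norm_num; rw [show (12 : ℕ) = 6 * 2 by norm_num,
            pow_mul, h6, one_pow]) (fun h10 => ?_)
          apply h2
          have h11 : ε ^ 6 = ε ^ 4 * ε ^ 2 := by ring
          rw [h10, one_mul, h6] at h11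
          exact h11.symm
        have hB0 : MvPolynomial.aeval u V.B ≠ 0 := by
          intro hB0
          apply hd
          rw [hA0, hB0]; ring
        refine null_cube h ho hu hA0 hB0 hω (fun x y he => ?_) he
        have h10 := hr _ _ he
        have he' : (ε ^ 3 * y) ^ 2 = (ε ^ 2 * x) ^ 3 + MvPolynomial.aeval u V.A * (ε ^ 2 * x) +
            MvPolynomial.aeval u V.B := by
          rw [hA0] at he ⊢
          linear_combination ε ^ 6 * he + (MvPolynomial.aeval u V.B) * h6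
        have h11 := hr _ _ he'
        have e1 : ε ^ 2 * (ε ^ 2 * x) = ε ^ 4 * x := by ring
        have e2 : ε ^ 3 * (ε ^ 3 * y) = y := by
          have : ε ^ 3 * (ε ^ 3 * y) = ε ^ 6 * y := by ring
          rw [this, h6, one_mul]
        rw [e1, e2, h10] at h11
        rw [h11]
        linear_combination (ψ (apt V u x y)) * h9
      rw [IsPrimitiveRoot.iff_orderOf]
      refine orderOf_six (by rw [show (6 : ℕ) = 3 * 2 by norm_num, pow_mul, h8]; norm_num) h9
        (by rw [h8]; exact m2)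

/-- A function with the character `χ ≠ 1` is zero if a component is on a fibre which is mapped to
itself, or the fibre is smooth and the automorphism is of order `2`, `3`, `4`, `6` on it. -/
theorem null_fibre {n : ℕ} {Ψ : (V.surface.pow n).Pt → ℂ} (h : Odd V n Ψ) (F : Aut V) {χ : ℂ}
    (hχ : χ ≠ 1) (hs : ∀ (q : (V.surface.pow n).Pt) i, Ψ (update q i (aut F (q i))) = χ * Ψ q)
    {q : (V.surface.pow n).Pt} {i : Fin n} {a : Coord V k} (hq : q i = WPt.mk a) {l : k}
    (hl0 : l ≠ 0) (hl : ∀ j, affV F.d F.c a.u j = l * a.u j) :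
    Ψ q = 0 ∨ (4 * MvPolynomial.aeval a.u V.A ^ 3 + 27 * MvPolynomial.aeval a.u V.B ^ 2 ≠ 0 ∧
      ∃ t : ℕ, (t = 2 ∨ t = 3 ∨ t = 4 ∨ t = 6) ∧ IsPrimitiveRoot (F.e * l⁻¹ ^ V.N) t ∧
        IsPrimitiveRoot χ t) := by
  by_cases hd : 4 * MvPolynomial.aeval a.u V.A ^ 3 + 27 * MvPolynomial.aeval a.u V.B ^ 2 = 0
  · exact Or.inl (_root_.CX.Pool.Agent.Helper83.VN.odd_sing h hq hd)
  rcases aff_or_zero (q i) with ⟨u, hu, hp⟩ | ⟨u, x, y, hu, he, hp⟩
  · left
    exact h.zero_of_neg (i := i) (by rw [hp, neg_zeroPt])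
  obtain ⟨l', c', hl', hc', h1, h2⟩ := mk_eq_iff.mp (hq.symm.trans hp)
  replace h1 : ∀ j, u j = l' * a.u j := h1
  have hu' : u = fun j => l' * a.u j := funext h1
  have hlu : ∀ j, affV F.d F.c u j = l * u j := by
    intro j
    rw [hu']
    fin_cases j
    · have h3 : a.u 0 = l * a.u 0 := hl 0
      change l' * a.u 0 = l * (l' * a.u 0)
      linear_combination l' * h3
    · have h3 : algebraMap k k F.d * a.u 1 + algebraMap k k F.c * a.u 0 = l * a.u 1 := hl 1
      change algebraMap k k F.d * (l' * a.u 1) + algebraMap k k F.c * (l' * a.u 0) =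
        l * (l' * a.u 1)
      linear_combination l' * h3
  have hlu' : affV F.d F.c u = fun j => l * u j := funext hlu
  have hdu : 4 * MvPolynomial.aeval u V.A ^ 3 + 27 * MvPolynomial.aeval u V.B ^ 2 ≠ 0 := by
    rw [hu', aeval_smul V.hA, aeval_smul V.hB]
    have e : 4 * (l' ^ (4 * V.N) * MvPolynomial.aeval a.u V.A) ^ 3 +
        27 * (l' ^ (6 * V.N) * MvPolynomial.aeval a.u V.B) ^ 2 =
        l' ^ (12 * V.N) *
          (4 * MvPolynomial.aeval a.u V.A ^ 3 + 27 * MvPolynomial.aeval a.u V.B ^ 2) := by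
      ring
    rw [e]
    exact mul_ne_zero (pow_ne_zero _ hl') hd
  have hAl : l ^ (4 * V.N) * MvPolynomial.aeval u V.A = F.e ^ 4 * MvPolynomial.aeval u V.A := by
    have h3 := F.aevalA u
    rw [hlu', aeval_smul V.hA] at h3
    exact h3
  have hBl : l ^ (6 * V.N) * MvPolynomial.aeval u V.B = F.e ^ 6 * MvPolynomial.aeval u V.B := by
    have h3 := F.aevalB u
    rw [hlu', aeval_smul V.hB] at h3
    exact h3
  have hinv : ∀ m : ℕ, l⁻¹ ^ m * l ^ m = 1 := fun m => by
    rw [← mul_pow, inv_mul_cancel₀ hl0, one_pow]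
  have hA : (F.e * l⁻¹ ^ V.N) ^ 4 * MvPolynomial.aeval u V.A = MvPolynomial.aeval u V.A := by
    have e : (F.e * l⁻¹ ^ V.N) ^ 4 = l⁻¹ ^ (4 * V.N) * F.e ^ 4 := by
      rw [mul_pow, ← pow_mul]; ring
    rw [e, mul_assoc, ← hAl, ← mul_assoc, hinv, one_mul]
  have hB : (F.e * l⁻¹ ^ V.N) ^ 6 * MvPolynomial.aeval u V.B = MvPolynomial.aeval u V.B := by
    have e : (F.e * l⁻¹ ^ V.N) ^ 6 = l⁻¹ ^ (6 * V.N) * F.e ^ 6 := by
      rw [mul_pow, ← pow_mul]; ring
    rw [e, mul_assoc, ← hBl, ← mul_assoc, hinv, one_mul]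
  have haut : ∀ x y, y ^ 2 = x ^ 3 + MvPolynomial.aeval u V.A * x + MvPolynomial.aeval u V.B →
      aut F (apt V u x y) = apt V u ((F.e * l⁻¹ ^ V.N) ^ 2 * x) ((F.e * l⁻¹ ^ V.N) ^ 3 * y) := by
    intro x y he
    have he' : ((F.e * l⁻¹ ^ V.N) ^ 3 * y) ^ 2 = ((F.e * l⁻¹ ^ V.N) ^ 2 * x) ^ 3 +
        MvPolynomial.aeval u V.A * ((F.e * l⁻¹ ^ V.N) ^ 2 * x) + MvPolynomial.aeval u V.B := by
      linear_combination (F.e * l⁻¹ ^ V.N) ^ 6 * he + (F.e * l⁻¹ ^ V.N) ^ 2 * x * hA + hB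
    rw [apt_eq hu he, apt_eq hu he']
    refine mk_eq_iff.mpr ⟨l⁻¹, 1, inv_ne_zero hl0, one_ne_zero, fun j => ?_, fun j => ?_⟩
    · change u j = l⁻¹ * affV F.d F.c u j
      rw [hlu j, ← mul_assoc, inv_mul_cancel₀ hl0, one_mul]
    · fin_cases j
      · change (F.e * l⁻¹ ^ V.N) ^ 2 * x = l⁻¹ ^ (2 * V.N) * 1 * (algebraMap k k F.e ^ 2 * x)
        change (F.e * l⁻¹ ^ V.N) ^ 2 * x = l⁻¹ ^ (2 * V.N) * 1 * (F.e ^ 2 * x)
        ring
      · change (F.e * l⁻¹ ^ V.N) ^ 3 * y = l⁻¹ ^ (3 * V.N) * 1 * (F.e ^ 3 * y)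
        ring
      · change (1 : k) = l⁻¹ ^ 0 * 1 * 1
        rw [pow_zero, one_mul, one_mul]
  obtain ⟨hk, ho⟩ := h.one q i
  have hval : Ψ (update q i (apt V u x y)) = Ψ q := by
    rw [apt_eq hu he, ← hp, update_eq_self]
  rcases null_core (ψ := fun x => Ψ (update q i x)) hk ho hu hdu hA hB hχ
    (fun x y he => by
      have h3 := hs (update q i (apt V u x y)) i
      rw [update_self, update_idem, haut x y he] at h3
      exact h3) he with h3 | ⟨h3, h4⟩
  · left
    rw [← hval]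
    exact h3
  · right
    refine ⟨hd, orderOf (F.e * l⁻¹ ^ V.N), h3, ?_, h4⟩
    rw [IsPrimitiveRoot.iff_orderOf]

/-- The fibre over `(1 : 0)`. -/
theorem null {n : ℕ} {Ψ : (V.surface.pow n).Pt → ℂ} (h : Odd V n Ψ) (F : Aut V) (hc : F.c = 0)
    {χ : ℂ} (hχ : χ ≠ 1)
    (hs : ∀ (q : (V.surface.pow n).Pt) i, Ψ (update q i (aut F (q i))) = χ * Ψ q)
    {q : (V.surface.pow n).Pt} {i : Fin n} {a : Coord V k} (hq : q i = WPt.mk a)
    (ha : a.u 1 = 0) :
    Ψ q = 0 ∨ (4 * MvPolynomial.aeval a.u V.A ^ 3 + 27 * MvPolynomial.aeval a.u V.B ^ 2 ≠ 0 ∧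
      ∃ t : ℕ, (t = 2 ∨ t = 3 ∨ t = 4 ∨ t = 6) ∧ IsPrimitiveRoot F.e t ∧
        IsPrimitiveRoot χ t) := by
  have h1 := null_fibre h F hχ hs hq (l := 1) one_ne_zero (fun j => by
    fin_cases j
    · exact (one_mul _).symm
    · change algebraMap k k F.d * a.u 1 + algebraMap k k F.c * a.u 0 = 1 * a.u 1
      rw [ha, hc, map_zero]; ring)
  rwa [inv_one, one_pow, mul_one] at h1

/-- The fibre over `(0 : 1)`. -/
theorem null_inf {n : ℕ} {Ψ : (V.surface.pow n).Pt → ℂ} (h : Odd V n Ψ) (F : Aut V)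
    {χ : ℂ} (hχ : χ ≠ 1)
    (hs : ∀ (q : (V.surface.pow n).Pt) i, Ψ (update q i (aut F (q i))) = χ * Ψ q)
    {q : (V.surface.pow n).Pt} {i : Fin n} {a : Coord V k} (hq : q i = WPt.mk a)
    (ha : a.u 0 = 0) :
    Ψ q = 0 ∨ (4 * MvPolynomial.aeval a.u V.A ^ 3 + 27 * MvPolynomial.aeval a.u V.B ^ 2 ≠ 0 ∧
      ∃ t : ℕ, (t = 2 ∨ t = 3 ∨ t = 4 ∨ t = 6) ∧ IsPrimitiveRoot (F.e * F.d⁻¹ ^ V.N) t ∧
        IsPrimitiveRoot χ t) :=
  null_fibre h F hχ hs hq (l := F.d) F.hd (fun j => by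
    fin_cases j
    · change a.u 0 = F.d * a.u 0
      rw [ha, mul_zero]
    · change algebraMap k k F.d * a.u 1 + algebraMap k k F.c * a.u 0 = F.d * a.u 1
      rw [ha, mul_zero, add_zero]
      rfl)

end CX.CHV
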