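import Mathlib
import Pool.Agent.Helper40.CX.H51EW.Odd2
import Pool.Agent.Helper40.CX.H83VN.Pnt
import Pool.Agent.Helper40.CX.H83VN.Bad
import Pool.Agent.Helper40.CX.H83KV.App

/-!
# Odd functions which are zero over the multiplicative group
-/

set_option autoImplicit false
set_option linter.unusedSectionVars false

namespace CX.CHV

open CX.VC CX.VF Function
open CX.Pool.Agent.Helper51.EW

universe u

variable {k : Type u} [Field k] [IsAlgClosed k] [Good k] {V : Wei k}

theorem zero_fix {f : V.surface.Pt → ℂ} (hodd : ∀ x, f (neg x) = -f x) {x : V.surface.Pt}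
    (hx : neg x = x) : f x = 0 := by
  have h1 := hodd x
  rw [hx] at h1
  have h2 : (2 : ℂ) * f x = 0 := by linear_combination h1
  exact (mul_eq_zero.mp h2).resolve_left two_ne_zero

theorem torus_key {f : V.surface.Pt → ℂ} (hf : Kills V.surface f)
    (hodd : ∀ x, f (neg x) = -f x)
    (h : ∀ b : Coord V k, b.u 0 ≠ 0 → b.u 1 ≠ 0 → f (WPt.mk b) = 0) {u e : Fin 2 → k} (hu : u ≠ 0)
    {x y : k} (he : y ^ 2 = x ^ 3 + MvPolynomial.aeval u V.A * x + MvPolynomial.aeval u V.B)
    (hc : ∀ c : k, c ≠ 0 → u 0 + c * e 0 ≠ 0 ∧ u 1 + c * e 1 ≠ 0) :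
    f (apt V u x y) = 0 := by
  obtain ⟨U, hU⟩ : ∃ U : Fin 2 → Polynomial k, U = fun i =>
    Polynomial.C (u i) + Polynomial.X * Polynomial.C (e i) := ⟨_, rfl⟩
  obtain ⟨K, _, _, τ, Y, hK, hτ, hY⟩ := exists_poly_roots (k := k) (m := 2) two_ne_zero
    (fun _ : Fin 1 => (Polynomial.C (x ^ 3) + MvPolynomial.aeval U V.A * Polynomial.C x +
      MvPolynomial.aeval U V.B : Polynomial k))
  have hUτ : ∀ F : MvPolynomial (Fin 2) k, Polynomial.aeval τ (MvPolynomial.aeval U F) =
      MvPolynomial.aeval (fun i => algebraMap k K (u i) + τ * algebraMap k K (e i)) F := by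
    intro F
    rw [MvPolynomial.comp_aeval_apply]
    congr 2
    funext i
    rw [hU, map_add, map_mul, Polynomial.aeval_C, Polynomial.aeval_C, Polynomial.aeval_X]
  obtain ⟨uK, huK⟩ : ∃ uK : Fin 2 → K, uK = fun i =>
    algebraMap k K (u i) + τ * algebraMap k K (e i) := ⟨_, rfl⟩
  have heq : Y 0 ^ 2 = (algebraMap k K x) ^ 3 + MvPolynomial.aeval uK V.A * algebraMap k K x +
      MvPolynomial.aeval uK V.B := by
    rw [hY 0, map_add, map_add, map_mul, Polynomial.aeval_C, Polynomial.aeval_C, hUτ, hUτ, map_pow,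
      huK]
  have hres : ∀ (w : Place k K) (c : k), IsRes w τ c → ∀ i,
      IsRes w (uK i) (u i + c * e i) := by
    intro w c hw i
    rw [huK]
    exact (isRes_const _).add (hw.mul (isRes_const _))
  have hYr : ∀ (w : Place k K) (c : k), IsRes w τ c → ∃ d, IsRes w (Y 0) d ∧
      d ^ 2 = x ^ 3 + MvPolynomial.aeval (fun i => u i + c * e i) V.A * x +
        MvPolynomial.aeval (fun i => u i + c * e i) V.B := by
    intro w c hw
    refine exists_res_of_pow hK two_ne_zero ?_
    rw [heq]
    exact (((isRes_const _).pow 3).add ((isRes_aeval (hres w c hw) V.A).mul (isRes_const _))).add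
      (isRes_aeval (hres w c hw) V.B)
  obtain ⟨w₀, hw₀⟩ := exists_place hK hτ
  have hτ0 : IsRes w₀ τ 0 := isRes_zero_iff.mpr hw₀
  have hu0 : (fun i => u i + 0 * e i) = u := by
    funext i
    rw [zero_mul, add_zero]
  obtain ⟨d, hd1, hd2⟩ := hYr w₀ 0 hτ0
  rw [hu0, ← he] at hd2
  have hval : V.surface.eval hK (apt V uK (algebraMap k K x) (Y 0)) w₀ = apt V u x d := by
    rw [eval_apt hK w₀ heq hu (fun i => ?_) (isRes_const _) hd1]
    have h1 := hres w₀ 0 hτ0 i
    rwa [zero_mul, add_zero] at h1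
  have key := CX.Pool.Agent.Helper83.KV.app hf hK (apt V uK (algebraMap k K x) (Y 0))
    (CX.Pool.Agent.Helper83.VN.fin_pl hK hτ (Set.finite_singleton (0 : k))) (by
      intro w hw
      rw [Set.mem_ofPred_eq, not_or, not_not, not_exists] at hw
      obtain ⟨hw1, hw2⟩ := hw
      obtain ⟨c, hc'⟩ := exists_res hK hw1
      have hc0 : c ≠ 0 := by
        rintro rfl
        exact hw2 0 ⟨rfl, hc'⟩
      obtain ⟨h1, h2⟩ := hc c hc0
      obtain ⟨d', hd1', hd2'⟩ := hYr w c hc'
      have hr : (fun i => u i + c * e i) ≠ 0 := fun h3 => h1 (congrFun h3 0)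
      rw [eval_apt hK w heq hr (hres w c hc') (isRes_const _) hd1', apt_eq hr hd2']
      exact h (affC _ x d' hr hd2') h1 h2) w₀
  rw [hval] at key
  rcases sq_eq_sq_iff_eq_or_eq_neg.mp hd2 with h3 | h3
  · rw [← h3]
    exact key
  · have h4 : apt V u x d = neg (apt V u x y) := by
      rw [neg_apt hu he, h3]
    rw [h4, hodd, neg_eq_zero] at key
    exact key

/-- An odd function on the surface which is zero over the multiplicative group is zero. -/
theorem torus_one {f : V.surface.Pt → ℂ} (hf : Kills V.surface f)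
    (hodd : ∀ x, f (neg x) = -f x)
    (h : ∀ b : Coord V k, b.u 0 ≠ 0 → b.u 1 ≠ 0 → f (WPt.mk b) = 0) (x : V.surface.Pt) :
    f x = 0 := by
  rcases aff_or_zero x with ⟨u, hu, rfl⟩ | ⟨u, x, y, hu, he, rfl⟩
  · exact zero_fix hodd (neg_zeroPt u hu)
  by_cases h0 : u 0 = 0
  · have h1 : u 1 ≠ 0 := by
      intro h1
      apply hu
      funext i
      fin_cases i
      · exact h0
      · exact h1
    rw [← apt_eq hu he]
    refine torus_key hf hodd h hu (e := ![1, 0]) he fun c hc => ⟨?_, ?_⟩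
    · change u 0 + c * 1 ≠ 0
      rw [h0, zero_add, mul_one]
      exact hc
    · change u 1 + c * 0 ≠ 0
      rw [mul_zero, add_zero]
      exact h1
  by_cases h1 : u 1 = 0
  · rw [← apt_eq hu he]
    refine torus_key hf hodd h hu (e := ![0, 1]) he fun c hc => ⟨?_, ?_⟩
    · change u 0 + c * 0 ≠ 0
      rw [mul_zero, add_zero]
      exact h0
    · change u 1 + c * 1 ≠ 0
      rw [h1, zero_add, mul_one]
      exact hc
  · exact h (affC u x y hu he) h0 h1

/-- An odd function on the power of the surface which is zero over the multiplicative group is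
zero. -/
theorem torus_pow {n : ℕ} {Ψ : (V.surface.pow n).Pt → ℂ} (h : Odd V n Ψ)
    (h0 : ∀ q : (V.surface.pow n).Pt, (∀ i, ∃ a : Coord V k, q i = WPt.mk a ∧ a.u 0 ≠ 0 ∧
      a.u 1 ≠ 0) → Ψ q = 0) (q : (V.surface.pow n).Pt) : Ψ q = 0 := by
  classical
  have key : ∀ (S : Finset (Fin n)) (q : (V.surface.pow n).Pt), (∀ i ∉ S, ∃ a : Coord V k,
      q i = WPt.mk a ∧ a.u 0 ≠ 0 ∧ a.u 1 ≠ 0) → Ψ q = 0 := by
    intro S
    induction S using Finset.induction_on with
    | empty => exact fun q hq => h0 q fun i => hq i (Finset.notMem_empty i)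
    | insert i S hi ih =>
      intro q hq
      obtain ⟨h1, h2⟩ := h.one q i
      have h3 := torus_one h1 h2 (fun b hb0 hb1 => ih (update q i (WPt.mk b)) fun j hj => ?_) (q i)
      · rwa [update_eq_self] at h3
      · by_cases hji : j = i
        · subst hji
          exact ⟨b, update_self _ _ _, hb0, hb1⟩
        · rw [update_of_ne hji]
          exact hq j fun h4 => (Finset.mem_insert.mp h4).elim hji hj
  exact key Finset.univ q fun i hi => absurd (Finset.mem_univ i) hi

end CX.CHV
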